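import Pool.Agent.T9h73.PP.Basis

/-!
Counting the words with a given number of ascents.
-/

namespace Pool.Agent.T9h73.PP

open Finset

set_option linter.unusedSectionVars false

variable {B : Type} [Fintype B] [DecidableEq B] {e : B → ℕ} {N : ℕ}

theorem card_asc_le (μ : (Σ b, Fin (e b)) → ℕ) (m0 : ℕ) (π : (Σ b, Fin (e b)) ≃ Fin N) :
    (asc μ m0 π).card ≤ N := by
  have := Finset.card_le_univ (asc μ m0 π)
  rwa [Fintype.card_fin] at this

theorem sh_eq (μ : (Σ b, Fin (e b)) → ℕ) (m0 : ℕ) (b : B) :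
    sh μ m0 b = (univ.filter fun v : Fin (e b) => pv μ m0 ⟨b, v⟩ < μ ⟨b, v⟩).card := by
  rw [sh, Fin.sum_univ_castSucc, Finset.card_filter]
  have h1 : st μ m0 (⟨b, Fin.last (e b)⟩ : Σ b, Fin (e b + 1)) = 0 := by
    rw [st, dif_neg]; simp
  rw [h1, add_zero]
  refine Finset.sum_congr rfl fun v _ => ?_
  rw [st, dif_pos (by simp)]
  simp

/-! ### Reversed labels -/

section rev

variable (μ : (Σ b, Fin (e b)) → ℕ) (hμ : Function.Injective μ) (m0 L : ℕ)
  (hm0 : ∀ p, μ p ≠ m0) (hL : ∀ p, μ p ≤ L) (hL0 : m0 ≤ L)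

include hμ hm0 hL hL0

theorem asc_rev (π : (Σ b, Fin (e b)) ≃ Fin N) :
    asc (fun p => L - μ p) (L - m0) π = (asc μ m0 π)ᶜ := by
  ext k
  rw [Finset.mem_compl, mem_asc, mem_asc]
  obtain ⟨k, hk⟩ := k
  have h1 := hL (π.symm ⟨k, hk⟩)
  cases k with
  | zero =>
    rw [prev_zero, prev_zero]
    have := hm0 (π.symm ⟨0, hk⟩)
    omega
  | succ k =>
    rw [prev_succ, prev_succ]
    have h2 := hL (π.symm ⟨k, by omega⟩)
    have h3 : μ (π.symm ⟨k, by omega⟩) ≠ μ (π.symm ⟨k + 1, hk⟩) := by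
      intro h
      have := π.symm.injective (hμ h)
      simp at this
    omega

theorem card_asc_rev (π : (Σ b, Fin (e b)) ≃ Fin N) :
    (asc (fun p => L - μ p) (L - m0) π).card = N - (asc μ m0 π).card := by
  rw [asc_rev μ hμ m0 L hm0 hL hL0, Finset.card_compl, Fintype.card_fin]

theorem sh_rev (b : B) : sh (fun p => L - μ p) (L - m0) b = e b - sh μ m0 b := by
  rw [sh_eq, sh_eq]
  have h1 : ∀ v : Fin (e b), (pv (fun p => L - μ p) (L - m0) ⟨b, v⟩ < L - μ ⟨b, v⟩) ↔
      ¬ (pv μ m0 ⟨b, v⟩ < μ ⟨b, v⟩) := by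
    intro v
    have h2 := hL ⟨b, v⟩
    rw [pv, pv]
    by_cases h : (v : ℕ) = 0
    · rw [dif_pos h, dif_pos h]
      have := hm0 ⟨b, v⟩
      omega
    · rw [dif_neg h, dif_neg h]
      have h3 := hL ⟨b, ⟨v - 1, by have := v.2; omega⟩⟩
      have h4 : μ ⟨b, ⟨v - 1, by have := v.2; omega⟩⟩ ≠ μ ⟨b, v⟩ := by
        intro h5
        have h6 := hμ h5
        simp only [Sigma.mk.injEq, heq_eq_eq, true_and, Fin.ext_iff] at h6
        omega
      simp only
      omega
  rw [Finset.filter_congr fun v _ => h1 v]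
  have h2 := Finset.card_filter_add_card_filter_not (s := (univ : Finset (Fin (e b))))
    (fun v => pv μ m0 ⟨b, v⟩ < μ ⟨b, v⟩)
  rw [Finset.card_univ, Fintype.card_fin] at h2
  omega

end rev

/-! ### Counting -/

/-- number of words with `g` ascents -/
def hc (μ : (Σ b, Fin (e b)) → ℕ) (m0 : ℕ) (N g : ℕ) : ℕ :=
  (univ.filter fun π : Om e N => (asc μ m0 π.1).card = g).card

/-- number of exponents in `N + 1` variables of degree `n - k` -/
noncomputable def aN (N n k : ℕ) : ℕ := Nat.card {c : Fin (N + 1) → ℕ // ∑ i, c i + k = n}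

theorem aN_of_lt (N n k : ℕ) (h : n < k) : aN N n k = 0 := by
  rw [aN]
  have : IsEmpty {c : Fin (N + 1) → ℕ // ∑ i, c i + k = n} := ⟨fun c => by have := c.2; omega⟩
  exact Nat.card_of_isEmpty

theorem aN_self (N n : ℕ) : aN N n n = 1 := by
  rw [aN, Nat.card_eq_one_iff_unique]
  constructor
  · constructor
    rintro ⟨c, hc⟩ ⟨c', hc'⟩
    have key : ∀ c : Fin (N + 1) → ℕ, ∑ i, c i + n = n → c = 0 := by
      intro c hc
      have h0 : ∑ i, c i = 0 := by omega
      funext i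
      exact (Finset.sum_eq_zero_iff.mp h0) i (Finset.mem_univ _)
    rw [Subtype.mk.injEq, key c hc, key c' hc']
  · exact ⟨⟨fun _ => 0, by simp⟩⟩

instance finite_c (N n k : ℕ) : Finite {c : Fin (N + 1) → ℕ // ∑ i, c i + k = n} := by
  have h1 : ∀ c : {c : Fin (N + 1) → ℕ // ∑ i, c i + k = n}, ∀ i, c.1 i < n + 1 := by
    intro c i
    have h2 : c.1 i ≤ ∑ i, c.1 i := Finset.single_le_sum (fun _ _ => Nat.zero_le _)
      (Finset.mem_univ i)
    have := c.2
    omega
  refine Finite.of_injective (fun c => (fun i => (⟨c.1 i, h1 c i⟩ : Fin (n + 1)))) ?_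
  intro c c' h
  apply Subtype.ext
  funext i
  have := congrFun h i
  simpa using this

/-- the exponents of level `n` -/
abbrev HX (e : B → ℕ) (s : B → ℕ) (n : ℕ) : Type :=
  {m : (Σ b, Fin (e b + 1)) → ℕ // ∀ b, (∑ j, m ⟨b, j⟩) + s b = n}

theorem card_HX [Nonempty B] (μ : (Σ b, Fin (e b)) → ℕ) (hμ : Function.Injective μ)
    (m0 : ℕ) (hN : Fintype.card (Σ b, Fin (e b)) = N) (n : ℕ) :
    Nat.card (HX e (sh μ m0) n) = ∑ π : Om e N, aN N n (asc μ m0 π.1).card := by
  have h1 : ∑ π : Om e N, aN N n (asc μ m0 π.1).card =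
      Nat.card (Σ π : Om e N, {c : Fin (N + 1) → ℕ // ∑ i, c i + (asc μ m0 π.1).card = n}) := by
    rw [Nat.card_sigma]; rfl
  rw [h1]
  symm
  refine Nat.card_eq_of_bijective (fun z => ⟨fun x => mm z.1.1 (fun k => z.2.1 k +
    ra μ m0 z.1.1 k) x - st μ m0 x, fun b => ?_⟩) ⟨?_, ?_⟩
  · obtain ⟨⟨π, hπ⟩, ⟨c, hc⟩⟩ := z
    have hle : ∀ x, st μ m0 x ≤ mm π (fun k => c k + ra μ m0 π k) x :=
      fun x => st_le_mm μ m0 hπ (ascLe_ra μ m0 π c) x
    simp only at hc ⊢
    rw [← sum_ra, ← Finset.sum_add_distrib,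
      ← tl_mm_zero π (fun k => c k + ra μ m0 π k) b, tl_zero] at hc
    rw [← hc, sh, ← Finset.sum_add_distrib]
    refine Finset.sum_congr rfl fun j _ => ?_
    have := hle ⟨b, j⟩
    omega
  · rintro ⟨⟨π, hπ⟩, ⟨c, hc⟩⟩ ⟨⟨π', hπ'⟩, ⟨c', hc'⟩⟩ h
    have h2 : mm π (fun k => c k + ra μ m0 π k) = mm π' (fun k => c' k + ra μ m0 π' k) := by
      funext x
      have h3 := congrFun (congrArg Subtype.val h) x
      simp only at h3
      have h4 := st_le_mm μ m0 hπ (ascLe_ra μ m0 π c) x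
      have h5 := st_le_mm μ m0 hπ' (ascLe_ra μ m0 π' c') x
      omega
    obtain ⟨h3, h4⟩ := word_unique μ hμ m0 hπ hπ' (ascLe_ra μ m0 π c) (ascLe_ra μ m0 π' c') h2
      (by rw [Finset.sum_add_distrib, Finset.sum_add_distrib, sum_ra, sum_ra]
          simp only at hc hc'
          omega)
    subst h3
    have h5 : c = c' := by
      funext k
      have := congrFun h4 k
      omega
    subst h5
    rfl
  · rintro ⟨m, hm⟩
    obtain ⟨π, hπ, C, hC, hm', hs⟩ := exists_word μ hμ m0 hN (fun x => m x + st μ m0 x) n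
      (fun b => by
        rw [tl_zero, ← hm b, sh, ← Finset.sum_add_distrib]) (fun x => Nat.le_add_left _ _)
    have hc : (fun k => (C k - ra μ m0 π k) + ra μ m0 π k) = C := by
      funext k
      have := ra_le μ m0 π hC k
      omega
    have hsum : ∑ i, (C i - ra μ m0 π i) + (asc μ m0 π).card = n := by
      rw [← sum_ra, ← Finset.sum_add_distrib, hc, hs]
    refine ⟨⟨⟨π, hπ⟩, ⟨fun k => C k - ra μ m0 π k, hsum⟩⟩, ?_⟩
    apply Subtype.ext
    funext x
    simp only
    rw [hc]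
    have := congrFun hm' x
    omega

theorem sum_aN (μ : (Σ b, Fin (e b)) → ℕ) (m0 : ℕ) (n : ℕ) (hn : n ≤ N) :
    ∑ π : Om e N, aN N n (asc μ m0 π.1).card =
      (∑ g ∈ range n, hc μ m0 N g * aN N n g) + hc μ m0 N n := by
  rw [← Finset.sum_fiberwise_of_maps_to (s := univ) (t := range (N + 1))
    (g := fun π : Om e N => (asc μ m0 π.1).card)
    (fun π _ => Finset.mem_range.mpr (Nat.lt_succ_of_le (card_asc_le μ m0 π.1)))]
  have h1 : ∀ g, (∑ π ∈ univ.filter (fun π : Om e N => (asc μ m0 π.1).card = g),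
      aN N n (asc μ m0 π.1).card) = hc μ m0 N g * aN N n g := by
    intro g
    rw [Finset.sum_congr rfl (g := fun _ => aN N n g)
      (fun π hπ => by rw [(Finset.mem_filter.mp hπ).2]), Finset.sum_const, smul_eq_mul, hc]
  rw [Finset.sum_congr rfl fun g _ => h1 g]
  have h2 : ∑ g ∈ range (N + 1), hc μ m0 N g * aN N n g =
      ∑ g ∈ range (n + 1), hc μ m0 N g * aN N n g := by
    symm
    apply Finset.sum_subset
    · intro x hx
      rw [Finset.mem_range] at hx ⊢
      omega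
    · intro x _ hx
      rw [Finset.mem_range, not_lt] at hx
      rw [aN_of_lt N n x (by omega), mul_zero]
  rw [h2, Finset.sum_range_succ, aN_self, mul_one]

/-- The numbers depend only on the shifts. -/
theorem hc_eq [Nonempty B] (μ ν : (Σ b, Fin (e b)) → ℕ) (hμ : Function.Injective μ)
    (hν : Function.Injective ν) (m0 n0 : ℕ) (hN : Fintype.card (Σ b, Fin (e b)) = N)
    (hs : sh μ m0 = sh ν n0) : ∀ g, g ≤ N → hc μ m0 N g = hc ν n0 N g := by
  intro g
  induction g using Nat.strong_induction_on with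
  | _ g ih =>
    intro hg
    have h1 := card_HX μ hμ m0 hN g
    have h2 := card_HX ν hν n0 hN g
    rw [sum_aN μ m0 g hg] at h1
    rw [sum_aN ν n0 g hg] at h2
    rw [hs] at h1
    have h3 : ∑ i ∈ range g, hc μ m0 N i * aN N g i = ∑ i ∈ range g, hc ν n0 N i * aN N g i := by
      refine Finset.sum_congr rfl fun i hi => ?_
      rw [Finset.mem_range] at hi
      rw [ih i hi (by omega)]
    omega

theorem hc_rev (μ : (Σ b, Fin (e b)) → ℕ) (hμ : Function.Injective μ) (m0 L : ℕ)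
    (hm0 : ∀ p, μ p ≠ m0) (hL : ∀ p, μ p ≤ L) (hL0 : m0 ≤ L) (g : ℕ) (hg : g ≤ N) :
    hc μ m0 N g = hc (fun p => L - μ p) (L - m0) N (N - g) := by
  rw [hc, hc]
  congr 1
  ext π
  simp only [mem_filter, mem_univ, true_and]
  rw [card_asc_rev μ hμ m0 L hm0 hL hL0]
  have := card_asc_le μ m0 π.1
  omega

theorem hc_zero [Nonempty B] (μ : (Σ b, Fin (e b)) → ℕ) (hμ : Function.Injective μ)
    (m0 : ℕ) (hN : Fintype.card (Σ b, Fin (e b)) = N) :
    hc μ m0 N 0 = if sh μ m0 = 0 then 1 else 0 := by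
  have h1 := card_HX μ hμ m0 hN 0
  rw [sum_aN μ m0 0 (Nat.zero_le _)] at h1
  simp only [Finset.range_zero, Finset.sum_empty, zero_add] at h1
  rw [← h1]
  split_ifs with h
  · rw [h, Nat.card_eq_one_iff_unique]
    constructor
    · constructor
      have key : ∀ m : HX e 0 0, m.1 = 0 := by
        intro m
        funext x
        have h2 := m.2 x.1
        have h3 : ∑ j, m.1 ⟨x.1, j⟩ = 0 := by
          have : (0 : B → ℕ) x.1 = 0 := rfl
          omega
        exact (Finset.sum_eq_zero_iff.mp h3) x.2 (Finset.mem_univ _)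
      intro m m'
      exact Subtype.ext (by rw [key m, key m'])
    · exact ⟨⟨0, fun b => by simp⟩⟩
  · have : IsEmpty (HX e (sh μ m0) 0) := by
      refine ⟨fun m => h ?_⟩
      funext b
      have := m.2 b
      simp only [Pi.zero_apply]
      omega
    exact Nat.card_of_isEmpty

end Pool.Agent.T9h73.PP
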