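import Pool.Agent.T9h75.NA.Free
import Pool.Agent.T9h73.PP.Count

/-!
The Segre data (piece (3) of `MP_954e53_ag.NegativeAnswer`).
-/

namespace Pool.Agent.T9h73.PP

open Finset MvPolynomial Pool.Agent.T9h29.NA

set_option linter.unusedSectionVars false

universe u

variable {B : Type} [Fintype B] [DecidableEq B] {e : B → ℕ}

/-! ### Labels -/

/-- an enumeration, increasing along the chains -/
noncomputable def enc (p : Σ b, Fin (e b)) : ℕ :=
  (p.2 : ℕ) * Fintype.card B + Fintype.equivFin B p.1

theorem enc_injective : Function.Injective (enc (e := e)) := by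
  rintro ⟨b, v⟩ ⟨b', v'⟩ h
  simp only [enc] at h
  have h1 := (Fintype.equivFin B b).2
  have h2 := (Fintype.equivFin B b').2
  have hc : 0 < Fintype.card B := by omega
  have h3 : (v : ℕ) = v' := by
    have e1 : ((v : ℕ) * Fintype.card B + (Fintype.equivFin B b : ℕ)) / Fintype.card B = v := by
      rw [mul_comm, Nat.mul_add_div hc, Nat.div_eq_of_lt h1, add_zero]
    have e2 : ((v' : ℕ) * Fintype.card B + (Fintype.equivFin B b' : ℕ)) / Fintype.card B = v' := by
      rw [mul_comm, Nat.mul_add_div hc, Nat.div_eq_of_lt h2, add_zero]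
    rw [← e1, ← e2, h]
  have h4 : (Fintype.equivFin B b : ℕ) = Fintype.equivFin B b' := by
    rw [h3] at h; omega
  have h5 : b = b' := (Fintype.equivFin B).injective (Fin.ext h4)
  subst h5
  have h6 : v = v' := Fin.ext h3
  rw [h6]

theorem enc_lt (p : Σ b, Fin (e b)) :
    enc p < (∑ b, e b) * Fintype.card B + Fintype.card B := by
  have h1 := (Fintype.equivFin B p.1).2
  have h2 : (p.2 : ℕ) ≤ ∑ b, e b := by
    have h3 : e p.1 ≤ ∑ b, e b := Finset.single_le_sum (fun _ _ => Nat.zero_le _)
      (Finset.mem_univ _)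
    have := p.2.2
    omega
  have h3 := Nat.mul_le_mul_right (Fintype.card B) h2
  rw [enc]
  omega

/-- the base label -/
noncomputable def lab0 (e : B → ℕ) : ℕ := (∑ b, e b) * Fintype.card B + Fintype.card B + 1

/-- the labels for the shift `s` -/
noncomputable def lab (s : B → ℕ) (p : Σ b, Fin (e b)) : ℕ :=
  if (p.2 : ℕ) < s p.1 then lab0 e + 1 + enc p else lab0 e - 1 - enc p

theorem lab_injective (s : B → ℕ) : Function.Injective (lab (e := e) s) := by
  intro p q h
  have h1 := enc_lt p
  have h2 := enc_lt q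
  apply enc_injective
  simp only [lab, lab0] at h
  split_ifs at h <;> omega

theorem lab_ne (s : B → ℕ) (p : Σ b, Fin (e b)) : lab s p ≠ lab0 e := by
  have h1 := enc_lt p
  simp only [lab, lab0]
  split_ifs <;> omega

theorem lab_le (s : B → ℕ) (p : Σ b, Fin (e b)) : lab s p ≤ 2 * lab0 e + 1 := by
  have h1 := enc_lt p
  simp only [lab, lab0]
  split_ifs <;> omega

theorem rev_injective (s : B → ℕ) :
    Function.Injective (fun p : Σ b, Fin (e b) => 2 * lab0 e + 1 - lab s p) := by
  intro p q h
  apply lab_injective s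
  have h1 := lab_le s p
  have h2 := lab_le s q
  have h3 : 2 * lab0 e + 1 - lab s p = 2 * lab0 e + 1 - lab s q := h
  omega

theorem enc_pred (b : B) (v : Fin (e b)) (h : (v : ℕ) ≠ 0) :
    enc (⟨b, ⟨v - 1, by have := v.2; omega⟩⟩ : Σ b, Fin (e b)) < enc ⟨b, v⟩ := by
  have h1 := (Fintype.equivFin B b).2
  simp only [enc]
  have h2 : ((v : ℕ) - 1) * Fintype.card B + Fintype.card B = (v : ℕ) * Fintype.card B := by
    obtain ⟨w, hw⟩ := Nat.exists_eq_succ_of_ne_zero h
    rw [hw, Nat.succ_sub_one, Nat.succ_mul]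
  omega

theorem sh_lab (s : B → ℕ) (hs : ∀ b, s b ≤ e b) : sh (lab (e := e) s) (lab0 e) = s := by
  funext b
  rw [sh_eq]
  have h1 : ∀ v : Fin (e b), (pv (lab s) (lab0 e) ⟨b, v⟩ < lab s ⟨b, v⟩) ↔ (v : ℕ) < s b := by
    intro v
    have h2 := enc_lt (⟨b, v⟩ : Σ b, Fin (e b))
    rw [pv]
    by_cases h : (v : ℕ) = 0
    · rw [dif_pos h]
      simp only [lab, lab0]
      split_ifs <;> omega
    · rw [dif_neg h]
      have h3 := enc_pred b v h
      simp only [lab, lab0]
      split_ifs <;> omega
  rw [Finset.filter_congr fun v _ => h1 v, Fin.card_filter_val_lt]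
  have := hs b
  omega

theorem card_P : Fintype.card (Σ b, Fin (e b)) = ∑ b, e b := by
  rw [Fintype.card_sigma]; simp

/-! ### The data -/

/-- reindexing -/
theorem card_filter_fin {α : Type} [Fintype α] (f : α → ℕ) (g : ℕ) :
    (univ.filter fun i : Fin (Fintype.card α) => f ((Fintype.equivFin α).symm i) = g).card =
      (univ.filter fun a : α => f a = g).card := by
  rw [← Finset.card_map (Fintype.equivFin α).symm.toEmbedding]
  congr 1
  ext a
  simp only [Finset.mem_map, mem_filter, mem_univ, true_and, Equiv.coe_toEmbedding]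
  constructor
  · rintro ⟨i, hi, rfl⟩; exact hi
  · intro h; exact ⟨Fintype.equivFin α a, by simpa using h, by simp⟩

theorem reindex_unique {K : Type u} [Field K] {α : Type} [Fintype α] {n N : ℕ} (E : α ≃ Fin n)
    (p : α → Pg K e) (f : Pg K e)
    (h : ∃! c : α → MvPolynomial (Fin (N + 1)) K, f = ∑ π, aeval (tf K e N) (c π) * p π) :
    ∃! c : Fin n → MvPolynomial (Fin (N + 1)) K,
      f = ∑ i, aeval (fun l : Fin (N + 1) => theta K e (l : ℕ)) (c i) * p (E.symm i) := by
  obtain ⟨c, hc, hu⟩ := h
  refine ⟨fun i => c (E.symm i), ?_, fun c' hc' => ?_⟩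
  · show f = ∑ i, aeval (tf K e N) (c (E.symm i)) * p (E.symm i)
    rw [Equiv.sum_comp E.symm (fun π => aeval (tf K e N) (c π) * p π)]
    exact hc
  · have h2 : (fun π => c' (E π)) = c := by
      apply hu
      show f = ∑ π, aeval (tf K e N) (c' (E π)) * p π
      rw [← Equiv.sum_comp E.symm (fun π => aeval (tf K e N) (c' (E π)) * p π)]
      simp only [Equiv.apply_symm_apply]
      exact hc'
    rw [← h2]
    funext i
    simp

/-- **Piece (3)**: the Segre modules are free over `K[θ]`, with symmetric levels. -/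
noncomputable def segreData (K : Type u) [Field K] [Nonempty B] (e : B → ℕ) :
    Pool.Agent.T9h75.NA.SegreData K e where
  m _ := Fintype.card (Om e (∑ b, e b))
  k s i := (asc (lab s) (lab0 e) ((Fintype.equivFin (Om e (∑ b, e b))).symm i).1).card
  p s i := pm K (lab s) (lab0 e) ((Fintype.equivFin (Om e (∑ b, e b))).symm i).1
  hp s hs i := by
    have h := pm_mem (K := K) (lab s) (lab0 e)
      ((Fintype.equivFin (Om e (∑ b, e b))).symm i).2
    rw [sh_lab s hs] at h
    exact h
  hk s hs i := card_asc_le _ _ _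
  top s hs := by
    rw [card_filter_fin (fun π : Om e (∑ b, e b) => (asc (lab s) (lab0 e) π.1).card)]
    have h1 := hc_rev (N := ∑ b, e b) (lab (e := e) s) (lab_injective s) (lab0 e)
      (2 * lab0 e + 1) (lab_ne s) (lab_le s) (by omega) (∑ b, e b) le_rfl
    rw [Nat.sub_self, hc_zero _ (rev_injective s) _ card_P] at h1
    rw [hc] at h1
    rw [h1]
    have h2 : sh (fun p : Σ b, Fin (e b) => 2 * lab0 e + 1 - lab s p)
        (2 * lab0 e + 1 - lab0 e) = 0 ↔ s = e := by
      constructor
      · intro h
        funext b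
        have h3 := congrFun h b
        rw [sh_rev _ (lab_injective s) _ _ (lab_ne s) (lab_le s) (by omega), sh_lab s hs] at h3
        have := hs b
        simp only [Pi.zero_apply] at h3
        omega
      · intro h
        funext b
        rw [sh_rev _ (lab_injective s) _ _ (lab_ne s) (lab_le s) (by omega), sh_lab s hs, h]
        simp
    simp only [h2]
  symm s hs g hg := by
    rw [card_filter_fin (fun π : Om e (∑ b, e b) => (asc (lab s) (lab0 e) π.1).card),
      card_filter_fin (fun π : Om e (∑ b, e b) =>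
        (asc (lab fun b => e b - s b) (lab0 e) π.1).card)]
    have h1 := hc_rev (N := ∑ b, e b) (lab (e := e) s) (lab_injective s) (lab0 e)
      (2 * lab0 e + 1) (lab_ne s) (lab_le s) (by omega) g hg
    have h2 := hc_eq (fun p => 2 * lab0 e + 1 - lab (e := e) s p) (lab (e := e) fun b => e b - s b)
      (rev_injective s) (lab_injective _) (2 * lab0 e + 1 - lab0 e) (lab0 e) card_P (by
        funext b
        rw [sh_rev _ (lab_injective s) _ _ (lab_ne s) (lab_le s) (by omega), sh_lab s hs,
          sh_lab _ (fun b => Nat.sub_le _ _)]) (∑ b, e b - g) (Nat.sub_le _ _)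
    rw [h2] at h1
    exact h1
  free s hs f hf := by
    have h1 : f ∈ restrictSupport K {m | ∃ n, m ∈ Lev (e := e) (sh (lab (e := e) s) (lab0 e)) n} := by
      rw [sh_lab s hs]; exact hf
    exact reindex_unique (Fintype.equivFin (Om e (∑ b, e b)))
      (fun π => pm K (lab s) (lab0 e) π.1) f
      (free_label (lab s) (lab_injective s) (lab0 e) card_P f h1)

end Pool.Agent.T9h73.PP
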