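import Pool.Agent.T9h73.PP.Free

/-!
The Segre modules `M(s)` are free over `K[θ]`: the statement for a labelling.
-/

namespace Pool.Agent.T9h73.PP

open Finset MvPolynomial Pool.Agent.T9h29.NA

set_option linter.unusedSectionVars false

universe u

variable {K : Type u} [Field K] {B : Type} [Fintype B] [DecidableEq B] {e : B → ℕ} {N : ℕ}

/-- exponents of `P` of degree `k - s_b` in block `b` -/
def Lev (s : B → ℕ) (k : ℕ) : Set ((Σ b, Fin (e b + 1)) →₀ ℕ) :=
  {m | ∀ b, (∑ j, m ⟨b, j⟩) + s b = k}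

/-- the shift of a labelling -/
def sh (μ : (Σ b, Fin (e b)) → ℕ) (m0 : ℕ) (b : B) : ℕ := ∑ j : Fin (e b + 1), st μ m0 ⟨b, j⟩

/-- the basis elements -/
noncomputable def pm (K : Type u) [Field K] (μ : (Σ b, Fin (e b)) → ℕ) (m0 : ℕ)
    (π : (Σ b, Fin (e b)) ≃ Fin N) : Pg K e :=
  monomial (fs fun x => mm π (ra μ m0 π) x - st μ m0 x) 1

theorem st_le_ra (μ : (Σ b, Fin (e b)) → ℕ) (m0 : ℕ) {π : (Σ b, Fin (e b)) ≃ Fin N}
    (hπ : LinExt π) (x : Σ b, Fin (e b + 1)) : st μ m0 x ≤ mm π (ra μ m0 π) x := by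
  have h5 : AscLe μ m0 π (ra μ m0 π) := by
    have := ascLe_ra μ m0 π (fun _ => 0)
    simpa using this
  exact st_le_mm μ m0 hπ h5 x

theorem qm_eq (μ : (Σ b, Fin (e b)) → ℕ) (m0 : ℕ) {π : (Σ b, Fin (e b)) ≃ Fin N}
    (hπ : LinExt π) : qm K μ m0 π = monomial (fs (st μ m0)) 1 * pm K μ m0 π := by
  rw [qm, pm, monomial_mul, one_mul]
  congr 2
  ext x
  have := st_le_ra μ m0 hπ x
  simp only [fs, Finsupp.equivFunOnFinite_symm_apply_apply, Finsupp.add_apply]
  omega

theorem tl_zero (m : (Σ b, Fin (e b + 1)) → ℕ) (b : B) : tl m b 0 = ∑ j, m ⟨b, j⟩ := up_zero _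

theorem pm_mem (μ : (Σ b, Fin (e b)) → ℕ) (m0 : ℕ) {π : (Σ b, Fin (e b)) ≃ Fin N}
    (hπ : LinExt π) :
    pm K μ m0 π ∈ restrictSupport K (Lev (e := e) (sh μ m0) (asc μ m0 π).card) := by
  rw [pm, mem_restrictSupport_iff]
  intro m hm
  have hm' : m = fs fun x => mm π (ra μ m0 π) x - st μ m0 x := by
    have := support_monomial_subset hm
    simpa using this
  subst hm'
  intro b
  simp only [fs, Finsupp.equivFunOnFinite_symm_apply_apply]
  rw [← sum_ra, ← tl_mm_zero π (ra μ m0 π) b, tl_zero, sh, ← Finset.sum_add_distrib]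
  refine Finset.sum_congr rfl fun j _ => ?_
  have := st_le_ra μ m0 hπ ⟨b, j⟩
  omega

/-- **Freeness** for a labelling. -/
theorem free_label [Nonempty B] (μ : (Σ b, Fin (e b)) → ℕ) (hμ : Function.Injective μ)
    (m0 : ℕ) (hN : Fintype.card (Σ b, Fin (e b)) = N) (f : Pg K e)
    (hf : f ∈ restrictSupport K {m | ∃ n, m ∈ Lev (e := e) (sh μ m0) n}) :
    ∃! c : Om e N → MvPolynomial (Fin (N + 1)) K,
      f = ∑ π, aeval (tf K e N) (c π) * pm K μ m0 π.1 := by
  have hPhi : ∀ c : Om e N → MvPolynomial (Fin (N + 1)) K, Phi K μ m0 N c =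
      monomial (fs (st μ m0)) 1 * ∑ π, aeval (tf K e N) (c π) * pm K μ m0 π.1 := by
    intro c
    rw [Phi_apply, Finset.mul_sum]
    refine Finset.sum_congr rfl fun π _ => ?_
    rw [qm_eq μ m0 π.2]
    ring
  have hne : (monomial (fs (st μ m0)) (1 : K) : Pg K e) ≠ 0 := by
    rw [Ne, monomial_eq_zero]; exact one_ne_zero
  have hmem : monomial (fs (st μ m0)) (1 : K) * f ∈ LinearMap.range (Phi K μ m0 (e := e) N) := by
    conv in f => rw [f.as_sum]
    rw [Finset.mul_sum]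
    refine Submodule.sum_mem _ fun v hv => ?_
    rw [monomial_mul, one_mul]
    have h8 : monomial (fs (st μ m0) + v) (coeff v f) =
        coeff v f • monomial (fs (st μ m0) + v) (1 : K) := by
      rw [smul_monomial, smul_eq_mul, mul_one]
    rw [h8]
    have hf2 := hf
    rw [mem_restrictSupport_iff] at hf2
    obtain ⟨n, hn⟩ := hf2 hv
    refine Submodule.smul_mem _ _ (mono_mem_range μ hμ m0 hN n _ _ rfl ?_ ?_)
    · intro b
      rw [← hn b, tl_zero, sh, ← Finset.sum_add_distrib]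
      refine Finset.sum_congr rfl fun j _ => ?_
      simp only [fs, Finsupp.add_apply, Finsupp.equivFunOnFinite_symm_apply_apply]
      exact add_comm _ _
    · intro x
      simp
  obtain ⟨c, hc⟩ := hmem
  refine ⟨c, ?_, fun c' hc' => ?_⟩
  · rw [hPhi] at hc
    exact (mul_left_cancel₀ hne hc).symm
  · apply Phi_injective μ hμ m0
    rw [hc, hPhi, ← hc']

end Pool.Agent.T9h73.PP
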