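import Mathlib

/-!
Words (orderings of a finite labelled set), ascents and the extremal property of the initial
segments of a word.
-/

namespace Pool.Agent.T9h73.PP

open Finset

set_option linter.unusedSectionVars false

variable {P : Type} [Fintype P] [DecidableEq P] {N : ℕ}

/-- label of the letter before position `k` -/
def prev (μ : P → ℕ) (m0 : ℕ) (π : P ≃ Fin N) (k : Fin N) : ℕ :=
  if h : (k : ℕ) = 0 then m0 else μ (π.symm ⟨k - 1, by omega⟩)

/-- ascents of the word -/
def asc (μ : P → ℕ) (m0 : ℕ) (π : P ≃ Fin N) : Finset (Fin N) :=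
  univ.filter fun k => prev μ m0 π k < μ (π.symm k)

/-- initial segment of the word -/
def seg (π : P ≃ Fin N) (k : ℕ) : Finset P := univ.filter fun p => (π p : ℕ) < k

theorem mem_seg {π : P ≃ Fin N} {k : ℕ} {p : P} : p ∈ seg π k ↔ (π p : ℕ) < k := by
  simp [seg]

theorem card_seg (π : P ≃ Fin N) {k : ℕ} (hk : k ≤ N) : (seg π k).card = k := by
  have : (seg π k).map π.toEmbedding = univ.filter (fun i : Fin N => (i : ℕ) < k) := by
    ext i
    simp only [Finset.mem_map, mem_seg, Equiv.coe_toEmbedding, mem_filter, mem_univ, true_and]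
    constructor
    · rintro ⟨p, hp, rfl⟩; exact hp
    · intro h; exact ⟨π.symm i, by simpa using h, by simp⟩
  rw [← card_map π.toEmbedding, this]
  rw [Fin.card_filter_val_lt]
  omega

theorem seg_inter (π : P ≃ Fin N) (k l : ℕ) : seg π k ∩ seg π l = seg π (min k l) := by
  ext p; simp [mem_seg]

theorem prev_zero (μ : P → ℕ) (m0 : ℕ) (π : P ≃ Fin N) (h : 0 < N) :
    prev μ m0 π ⟨0, h⟩ = m0 := by
  rw [prev, dif_pos rfl]

theorem prev_succ (μ : P → ℕ) (m0 : ℕ) (π : P ≃ Fin N) (k : ℕ) (h : k + 1 < N) :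
    prev μ m0 π ⟨k + 1, h⟩ = μ (π.symm ⟨k, by omega⟩) := by
  rw [prev, dif_neg (by simp)]
  simp

theorem mem_asc {μ : P → ℕ} {m0 : ℕ} {π : P ≃ Fin N} {k : Fin N} :
    k ∈ asc μ m0 π ↔ prev μ m0 π k < μ (π.symm k) := by
  simp [asc]

theorem le_of_no_asc (μ : P → ℕ) (m0 : ℕ) (π : P ≃ Fin N) (a : Fin N) :
    ∀ b : ℕ, (a : ℕ) ≤ b → ∀ hb : b < N,
      (∀ k ∈ asc μ m0 π, (a : ℕ) < k → (k : ℕ) ≤ b → False) →
      μ (π.symm ⟨b, hb⟩) ≤ μ (π.symm a) := by
  intro b hab
  induction b, hab using Nat.le_induction with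
  | base => intro _ _; exact le_refl _
  | succ b hab ih =>
    intro hb h
    have h1 := ih (by omega) (fun k hk h1 h2 => h k hk h1 (by omega))
    have h2 : (⟨b + 1, hb⟩ : Fin N) ∉ asc μ m0 π := fun hk => h _ hk (by simp; omega) (by simp)
    rw [mem_asc, prev_succ, not_lt] at h2
    exact h2.trans h1

theorem exists_asc_between (μ : P → ℕ) (m0 : ℕ) (π : P ≃ Fin N) (p q : P)
    (h : (π q : ℕ) < π p) (hμ : μ q < μ p) :
    ∃ k ∈ asc μ m0 π, (π q : ℕ) < k ∧ (k : ℕ) ≤ π p := by
  by_contra hno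
  push Not at hno
  have := le_of_no_asc μ m0 π (π q) (π p) h.le (π p).2
    (fun k hk h1 h2 => absurd (hno k hk h1) (by omega))
  simp at this
  omega

theorem le_of_no_asc_zero (μ : P → ℕ) (m0 : ℕ) (π : P ≃ Fin N) :
    ∀ b : ℕ, ∀ hb : b < N, (∀ k ∈ asc μ m0 π, (k : ℕ) ≤ b → False) →
      μ (π.symm ⟨b, hb⟩) ≤ m0 := by
  intro b hb h
  have h0 : (⟨0, by omega⟩ : Fin N) ∉ asc μ m0 π := fun hk => h _ hk (by simp)
  rw [mem_asc, prev_zero, not_lt] at h0
  exact (le_of_no_asc μ m0 π ⟨0, by omega⟩ b (by simp) hb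
    (fun k hk _ h2 => h k hk h2)).trans h0

theorem exists_asc_le (μ : P → ℕ) (m0 : ℕ) (π : P ≃ Fin N) (p : P) (hμ : m0 < μ p) :
    ∃ k ∈ asc μ m0 π, (k : ℕ) ≤ π p := by
  by_contra hno
  push Not at hno
  have := le_of_no_asc_zero μ m0 π (π p) (π p).2
    (fun k hk h2 => absurd (hno k hk) (by omega))
  simp at this
  omega

/-- Sums over two sets of the same size, all labels of the first below those of the second. -/
theorem sum_lt_sum_of_card (μ : P → ℕ) (A B : Finset P) (hc : A.card = B.card)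
    (hA : A.Nonempty) (h : ∀ a ∈ A, ∀ b ∈ B, μ a < μ b) : ∑ a ∈ A, μ a < ∑ b ∈ B, μ b := by
  obtain ⟨a, ha, hmax⟩ := A.exists_max_image μ hA
  have h1 : ∑ x ∈ A, μ x ≤ A.card * μ a := by
    have := Finset.sum_le_card_nsmul A μ (μ a) hmax
    simpa using this
  have h2 : B.card * (μ a + 1) ≤ ∑ b ∈ B, μ b := by
    have := Finset.card_nsmul_le_sum B μ (μ a + 1) (fun b hb => h a ha b hb)
    simpa using this
  have h3 : 0 < A.card := hA.card_pos
  rw [← hc] at h2
  nlinarith

/-- A set nested with the segments at all the ascents has a smaller label sum than the segment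
of the same size. -/
theorem sum_lt_seg (μ : P → ℕ) (hμ : Function.Injective μ) (m0 : ℕ) (π : P ≃ Fin N)
    (J : Finset P) (hle : ∀ r ∈ asc μ m0 π, (r : ℕ) ≤ J.card → seg π r ⊆ J)
    (hge : ∀ r ∈ asc μ m0 π, J.card ≤ (r : ℕ) → J ⊆ seg π r) (hne : J ≠ seg π J.card) :
    ∑ p ∈ J, μ p < ∑ p ∈ seg π J.card, μ p := by
  have hN : Fintype.card P = N := by simpa using Fintype.card_congr π
  have hJ : J.card ≤ N := by rw [← hN]; exact Finset.card_le_univ J
  have hcs := card_seg π hJ
  have hsd : (J \ seg π J.card).card = (seg π J.card \ J).card := by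
    have h1 := Finset.card_sdiff_add_card_inter J (seg π J.card)
    have h2 := Finset.card_sdiff_add_card_inter (seg π J.card) J
    rw [Finset.inter_comm] at h2
    omega
  have hnon : (J \ seg π J.card).Nonempty := by
    rw [Finset.nonempty_iff_ne_empty]
    intro h0
    apply hne
    have hsub : J ⊆ seg π J.card := Finset.sdiff_eq_empty_iff_subset.mp h0
    exact Finset.eq_of_subset_of_card_le hsub (by rw [hcs])
  have key := sum_lt_sum_of_card μ _ _ hsd hnon (by
    intro p hp q hq
    rw [Finset.mem_sdiff, mem_seg] at hp hq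
    by_contra hlt
    have hpq : p ≠ q := by rintro rfl; exact hq.2 hp.1
    have hlt' : μ q < μ p := lt_of_le_of_ne (not_lt.mp hlt) (fun h => hpq (hμ h).symm)
    obtain ⟨r, hr, h1, h2⟩ := exists_asc_between μ m0 π p q (by omega) hlt'
    rcases le_total (r : ℕ) J.card with h | h
    · exact hq.2 (hle r hr h (mem_seg.mpr h1))
    · have := hge r hr h hp.1
      rw [mem_seg] at this
      omega)
  have e1 := Finset.sum_inter_add_sum_sdiff J (seg π J.card) μ
  have e2 := Finset.sum_inter_add_sum_sdiff (seg π J.card) J μ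
  rw [Finset.inter_comm] at e2
  omega

/-! ### Families of sets -/

variable {ι : Type} [Fintype ι]

/-- number of the sets which contain `p` -/
def cnt (J : ι → Finset P) (p : P) : ℕ := ∑ j, if p ∈ J j then 1 else 0

/-- The potential. -/
def pot (μ : P → ℕ) (f : P → ℕ) : ℕ ×ₗ ℕ := toLex (∑ p, f p ^ 2, ∑ p, μ p * f p)

theorem energy (J : ι → Finset P) : ∑ p, cnt J p ^ 2 = ∑ j, ∑ l, (J j ∩ J l).card := by
  have h1 : ∀ p, cnt J p ^ 2 = ∑ j, ∑ l, if p ∈ J j ∩ J l then 1 else 0 := by
    intro p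
    rw [sq, cnt, Finset.sum_mul_sum]
    refine Finset.sum_congr rfl fun j _ => Finset.sum_congr rfl fun l _ => ?_
    simp only [Finset.mem_inter]
    by_cases h1 : p ∈ J j <;> by_cases h2 : p ∈ J l <;> simp [h1, h2]
  simp_rw [h1]
  rw [Finset.sum_comm]
  refine Finset.sum_congr rfl fun j _ => ?_
  rw [Finset.sum_comm]
  refine Finset.sum_congr rfl fun l _ => ?_
  rw [Finset.sum_boole, Finset.filter_mem_eq_inter, Finset.univ_inter]
  rfl

theorem labsum (μ : P → ℕ) (J : ι → Finset P) :
    ∑ p, μ p * cnt J p = ∑ j, ∑ p ∈ J j, μ p := by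
  simp_rw [cnt, Finset.mul_sum]
  rw [Finset.sum_comm]
  refine Finset.sum_congr rfl fun j _ => ?_
  simp

/-- **The extremal property.** -/
theorem pot_lt (μ : P → ℕ) (hμ : Function.Injective μ) (m0 : ℕ) (π : P ≃ Fin N)
    (J : ι → Finset P) (hfix : ∀ r ∈ asc μ m0 π, (r : ℕ) ≠ 0 → ∃ j, J j = seg π r)
    (hne : ∃ j, J j ≠ seg π (J j).card) :
    pot μ (cnt J) < pot μ (cnt fun j => seg π (J j).card) := by
  classical
  have hN : Fintype.card P = N := by simpa using Fintype.card_congr π
  have hJ : ∀ j, (J j).card ≤ N := fun j => by rw [← hN]; exact Finset.card_le_univ _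
  have hcap : ∀ j l, (J j ∩ J l).card ≤ (seg π (J j).card ∩ seg π (J l).card).card := by
    intro j l
    rw [seg_inter, card_seg π (by have := hJ j; omega)]
    exact le_min (Finset.card_le_card Finset.inter_subset_left)
      (Finset.card_le_card Finset.inter_subset_right)
  rw [pot, pot, Prod.Lex.toLex_lt_toLex]
  simp only
  rw [energy, energy]
  by_cases hall : ∀ j l, (J j ∩ J l).card = (seg π (J j).card ∩ seg π (J l).card).card
  · right
    refine ⟨Finset.sum_congr rfl fun j _ => Finset.sum_congr rfl fun l _ => hall j l, ?_⟩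
    rw [labsum, labsum]
    have hnest : ∀ j l, (J j).card ≤ (J l).card → J j ⊆ J l := by
      intro j l hjl
      have h1 := hall j l
      rw [seg_inter, card_seg π (by have := hJ j; omega), min_eq_left hjl] at h1
      have h2 : J j ∩ J l = J j := Finset.eq_of_subset_of_card_le Finset.inter_subset_left
        (by rw [h1])
      exact Finset.inter_eq_left.mp h2
    have hcmp : ∀ j, J j ≠ seg π (J j).card → ∑ p ∈ J j, μ p < ∑ p ∈ seg π (J j).card, μ p := by
      intro j hj
      refine sum_lt_seg μ hμ m0 π (J j) ?_ ?_ hj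
      · intro r hr hle
        by_cases h0 : (r : ℕ) = 0
        · intro p hp; rw [mem_seg] at hp; omega
        · obtain ⟨i, hi⟩ := hfix r hr h0
          rw [← hi]
          apply hnest
          rw [hi, card_seg π r.2.le]; exact hle
      · intro r hr hge
        by_cases h0 : (r : ℕ) = 0
        · have : J j = ∅ := by
            rw [← Finset.card_eq_zero]; omega
          rw [this]; exact Finset.empty_subset _
        · obtain ⟨i, hi⟩ := hfix r hr h0
          rw [← hi]
          apply hnest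
          rw [hi, card_seg π r.2.le]; exact hge
    obtain ⟨j, hj⟩ := hne
    refine Finset.sum_lt_sum (fun i _ => ?_) ⟨j, Finset.mem_univ _, hcmp j hj⟩
    by_cases hi : J i = seg π (J i).card
    · rw [← hi]
    · exact (hcmp i hi).le
  · left
    push Not at hall
    obtain ⟨j, l, hjl⟩ := hall
    refine Finset.sum_lt_sum (fun i _ => Finset.sum_le_sum fun k _ => hcap i k)
      ⟨j, Finset.mem_univ _, ?_⟩
    exact Finset.sum_lt_sum (fun k _ => hcap j k)
      ⟨l, Finset.mem_univ _, lt_of_le_of_ne (hcap j l) hjl⟩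

end Pool.Agent.T9h73.PP
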