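import Pool.Agent.T9h73.PP.Ring

/-!
The Segre modules `M(s)` are free over `K[θ]`: basis.
-/

namespace Pool.Agent.T9h73.PP

open Finset MvPolynomial Pool.Agent.T9h29.NA

set_option linter.unusedSectionVars false

universe u

variable {K : Type u} [Field K] {B : Type} [Fintype B] [DecidableEq B] {e : B → ℕ} {N : ℕ}

theorem coeff_SS (μ : (Σ b, Fin (e b)) → ℕ) (m0 : ℕ)
    (π : (Σ b, Fin (e b)) ≃ Fin N) (c : Fin (N + 1) → ℕ) (m : (Σ b, Fin (e b + 1)) →₀ ℕ) :
    coeff m (SS K μ m0 π c) = ∑ U : (Σ l : Fin (N + 1), Fin (c l)) → ∀ b, Fin (e b + 1),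
      if (∀ q, ∑ b, (U q b : ℕ) = q.1) ∧ fs (tot μ m0 π U) = m then (1 : K) else 0 := by
  rw [SS_eq, coeff_sum]
  refine Finset.sum_congr rfl fun U _ => ?_
  by_cases h : ∀ q, ∑ b, (U q b : ℕ) = q.1
  · rw [if_pos h, coeff_monomial]
    by_cases h2 : fs (tot μ m0 π U) = m
    · rw [if_pos h2, if_pos ⟨h, h2⟩]
    · rw [if_neg h2, if_neg (fun h3 => h2 h3.2)]
  · rw [if_neg h, coeff_zero, if_neg (fun h3 => h h3.1)]

theorem coeff_SS_self (μ : (Σ b, Fin (e b)) → ℕ) (hμ : Function.Injective μ) (m0 : ℕ)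
    {π : (Σ b, Fin (e b)) ≃ Fin N} (hπ : LinExt π) (c : Fin (N + 1) → ℕ) :
    coeff (fs (mm π (fun k => c k + ra μ m0 π k))) (SS K μ m0 π c) = 1 := by
  rw [coeff_SS, Finset.sum_eq_single (fun q => uu π q.1)]
  · rw [if_pos]
    exact ⟨fun q => sum_uu hπ q.1, by rw [tot_uu]⟩
  · intro U _ hU
    rw [if_neg]
    rintro ⟨h1, h2⟩
    have h3 := tot_pot_lt μ hμ m0 hπ U h1 hU
    rw [tot_uu, ← Finsupp.equivFunOnFinite.symm.injective h2] at h3
    exact lt_irrefl _ h3
  · intro h; exact absurd (Finset.mem_univ _) h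

theorem of_coeff_SS_ne (μ : (Σ b, Fin (e b)) → ℕ) (hμ : Function.Injective μ) (m0 : ℕ)
    {π : (Σ b, Fin (e b)) ≃ Fin N} (hπ : LinExt π) (c : Fin (N + 1) → ℕ)
    (m : (Σ b, Fin (e b + 1)) →₀ ℕ) (h : coeff m (SS K μ m0 π c) ≠ 0) :
    (⇑m = mm π (fun k => c k + ra μ m0 π k) ∨
      pot μ (Fv ⇑m) < pot μ (Fv (mm π (fun k => c k + ra μ m0 π k)))) ∧
      (∀ x, st μ m0 x ≤ m x) ∧ ∀ b, tl m b 0 = ∑ k, (c k + ra μ m0 π k) := by
  rw [coeff_SS] at h
  obtain ⟨U, _, hU⟩ := Finset.exists_ne_zero_of_sum_ne_zero h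
  rw [ite_ne_right_iff] at hU
  obtain ⟨⟨h1, h2⟩, _⟩ := hU
  have h3 : ⇑m = tot μ m0 π U := by rw [← h2]; rfl
  refine ⟨?_, ?_, ?_⟩
  · by_cases hU : U = fun q => uu π q.1
    · left; rw [h3, hU, tot_uu]
    · right
      have h4 := tot_pot_lt μ hμ m0 hπ U h1 hU
      rw [tot_uu] at h4
      rw [h3]; exact h4
  · intro x
    rw [h3, tot]
    have h5 : AscLe μ m0 π (ra μ m0 π) := by
      have := ascLe_ra μ m0 π (fun _ => 0)
      simpa using this
    have := st_le_mm μ m0 hπ h5 x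
    omega
  · intro b
    rw [h3]
    have h5 : tl (tot μ m0 π U) b 0 = (∑ q, tl (dl (U q)) b 0) + tl (mm π (ra μ m0 π)) b 0 := by
      rw [show tot μ m0 π U = fun x => (fun x => ∑ q, dl (U q) x) x + mm π (ra μ m0 π) x from rfl]
      rw [tl, up_add]
      congr 1
      rw [up_sum]
      rfl
    rw [h5, tl_mm_zero, Finset.sum_add_distrib]
    congr 1
    simp only [tl_dl, Nat.zero_le, if_true, Finset.sum_const, Finset.card_univ,
      Fintype.card_sigma, Fintype.card_fin, smul_eq_mul, mul_one]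

/-- the monomial of the ascents -/
noncomputable def qm (K : Type u) [Field K] (μ : (Σ b, Fin (e b)) → ℕ) (m0 : ℕ)
    (π : (Σ b, Fin (e b)) ≃ Fin N) : Pg K e := monomial (fs (mm π (ra μ m0 π))) 1

/-- the parameters -/
noncomputable def tf (K : Type u) [Field K] (e : B → ℕ) (N : ℕ) : Fin (N + 1) → Pg K e :=
  fun l => theta K e (l : ℕ)

theorem aeval_mono_mul (μ : (Σ b, Fin (e b)) → ℕ) (m0 : ℕ) (π : (Σ b, Fin (e b)) ≃ Fin N)
    (c : Fin (N + 1) →₀ ℕ) (a : K) :
    aeval (tf K e N) (monomial c a) * qm K μ m0 π = a • SS K μ m0 π c := by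
  rw [aeval_monomial, Finsupp.prod_fintype _ _ (fun _ => pow_zero _), mul_assoc,
    ← Algebra.smul_def]
  rfl

/-- Linear extensions. -/
abbrev Om (e : B → ℕ) (N : ℕ) : Type := {π : (Σ b, Fin (e b)) ≃ Fin N // LinExt π}

/-- The combination map. -/
noncomputable def Phi (K : Type u) [Field K] (μ : (Σ b, Fin (e b)) → ℕ) (m0 : ℕ) (N : ℕ) :
    (Om e N → MvPolynomial (Fin (N + 1)) K) →ₗ[K] Pg K e where
  toFun a := ∑ π, aeval (tf K e N) (a π) * qm K μ m0 π.1
  map_add' a a' := by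
    rw [← Finset.sum_add_distrib]
    refine Finset.sum_congr rfl fun π _ => ?_
    rw [Pi.add_apply, map_add, add_mul]
  map_smul' t a := by
    rw [RingHom.id_apply, Finset.smul_sum]
    refine Finset.sum_congr rfl fun π _ => ?_
    rw [Pi.smul_apply, map_smul, smul_mul_assoc]

theorem Phi_apply (μ : (Σ b, Fin (e b)) → ℕ) (m0 : ℕ)
    (a : Om e N → MvPolynomial (Fin (N + 1)) K) :
    Phi K μ m0 N a = ∑ π, aeval (tf K e N) (a π) * qm K μ m0 π.1 := rfl

theorem Phi_eq_sum (μ : (Σ b, Fin (e b)) → ℕ) (m0 : ℕ)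
    (a : Om e N → MvPolynomial (Fin (N + 1)) K) :
    Phi K μ m0 N a = ∑ z ∈ (univ : Finset (Om e N)).sigma (fun π => (a π).support),
      coeff z.2 (a z.1) • SS K μ m0 z.1.1 z.2 := by
  rw [Phi_apply, Finset.sum_sigma]
  refine Finset.sum_congr rfl fun π _ => ?_
  conv_lhs => rw [(a π).as_sum]
  rw [map_sum, Finset.sum_mul]
  exact Finset.sum_congr rfl fun c _ => aeval_mono_mul μ m0 π.1 c _

theorem SS_mem_range (μ : (Σ b, Fin (e b)) → ℕ) (m0 : ℕ) (π : Om e N) (c : Fin (N + 1) → ℕ) :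
    SS K μ m0 π.1 c ∈ LinearMap.range (Phi K μ m0 N) := by
  classical
  refine ⟨Pi.single π (monomial (Finsupp.equivFunOnFinite.symm c) 1), ?_⟩
  rw [Phi_apply, Finset.sum_eq_single π]
  · rw [Pi.single_eq_same, aeval_mono_mul, one_smul]
    rfl
  · intro π' _ h
    rw [Pi.single_eq_of_ne h, map_zero, zero_mul]
  · intro h; exact absurd (Finset.mem_univ _) h

theorem Phi_injective [Nonempty B] (μ : (Σ b, Fin (e b)) → ℕ) (hμ : Function.Injective μ)
    (m0 : ℕ) : Function.Injective (Phi K μ m0 (e := e) N) := by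
  classical
  rw [← LinearMap.ker_eq_bot, LinearMap.ker_eq_bot']
  intro a ha
  by_contra hne
  obtain ⟨π₁, hπ₁⟩ := Function.ne_iff.mp hne
  let Z := (univ : Finset (Om e N)).sigma (fun π => (a π).support)
  have hZ : Z.Nonempty := by
    have : (a π₁).support.Nonempty := by
      rw [Finset.nonempty_iff_ne_empty]
      intro h
      exact hπ₁ (support_eq_empty.mp h)
    obtain ⟨c, hc⟩ := this
    exact ⟨⟨π₁, c⟩, Finset.mem_sigma.mpr ⟨Finset.mem_univ _, hc⟩⟩
  obtain ⟨z, hz, hmax⟩ := Finset.exists_max_image Z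
    (fun z => pot μ (Fv (mm z.1.1 (fun k => z.2 k + ra μ m0 z.1.1 k)))) hZ
  have h0 := congrArg (coeff (fs (mm z.1.1 (fun k => z.2 k + ra μ m0 z.1.1 k)))) ha
  rw [Phi_eq_sum, coeff_zero, coeff_sum, Finset.sum_eq_single z] at h0
  · rw [coeff_smul, coeff_SS_self μ hμ m0 z.1.2, smul_eq_mul, mul_one] at h0
    have := (Finset.mem_sigma.mp hz).2
    rw [mem_support_iff] at this
    exact this h0
  · intro y hy hyz
    rw [coeff_smul, smul_eq_mul]
    by_contra hne'
    have h1 := of_coeff_SS_ne μ hμ m0 y.1.2 y.2 _ (right_ne_zero_of_mul hne')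
    rcases h1.1 with h2 | h2
    · apply hyz
      have h3 : mm z.1.1 (fun k => z.2 k + ra μ m0 z.1.1 k) =
          mm y.1.1 (fun k => y.2 k + ra μ m0 y.1.1 k) := h2
      have hs : ∑ k, (z.2 k + ra μ m0 z.1.1 k) = ∑ k, (y.2 k + ra μ m0 y.1.1 k) := by
        obtain ⟨b⟩ := (inferInstance : Nonempty B)
        rw [← tl_mm_zero z.1.1 _ b, ← tl_mm_zero y.1.1 _ b, h3]
      obtain ⟨h4, h5⟩ := word_unique μ hμ m0 z.1.2 y.1.2 (ascLe_ra μ m0 z.1.1 z.2)
        (ascLe_ra μ m0 y.1.1 y.2) h3 hs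
      have h6 : y.1 = z.1 := Subtype.ext h4.symm
      have h7 : y.2 = z.2 := by
        ext k
        have := congrFun h5 k
        simp only [h4] at this
        omega
      exact Sigma.ext h6 (heq_of_eq h7)
    · have := hmax y hy
      exact absurd h2 (not_lt.mpr this)
  · intro h; exact absurd hz h

theorem mono_mem_range (μ : (Σ b, Fin (e b)) → ℕ) (hμ : Function.Injective μ)
    (m0 : ℕ) (hN : Fintype.card (Σ b, Fin (e b)) = N) (n : ℕ) :
    ∀ (w : ℕ ×ₗ ℕ) (m : (Σ b, Fin (e b + 1)) →₀ ℕ), pot μ (Fv ⇑m) = w →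
      (∀ b, tl m b 0 = n) → (∀ x, st μ m0 x ≤ m x) →
      monomial m (1 : K) ∈ LinearMap.range (Phi K μ m0 (e := e) N) := by
  intro w
  induction w using WellFounded.induction (wellFounded_lt : WellFounded
    ((· < ·) : ℕ ×ₗ ℕ → ℕ ×ₗ ℕ → Prop)) with
  | _ w ih =>
    intro m hw hn hst
    obtain ⟨π, hπ, C, hC, hm, hs⟩ := exists_word μ hμ m0 hN m n hn hst
    let c : Fin (N + 1) → ℕ := fun k => C k - ra μ m0 π k
    have hc : (fun k => c k + ra μ m0 π k) = C := by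
      funext k
      have := ra_le μ m0 π hC k
      simp only [c]; omega
    have hmm : fs (mm π (fun k => c k + ra μ m0 π k)) = m := by
      rw [hc, hm]; ext x; rfl
    have h1 := coeff_SS_self (K := K) μ hμ m0 hπ c
    rw [hmm] at h1
    have h2 : m ∈ (SS K μ m0 π c).support := by
      rw [mem_support_iff, h1]; exact one_ne_zero
    have h3 := (SS K μ m0 π c).as_sum
    rw [← Finset.add_sum_erase _ _ h2, h1] at h3
    have h4 : monomial m (1 : K) = SS K μ m0 π c -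
        ∑ v ∈ (SS K μ m0 π c).support.erase m, monomial v (coeff v (SS K μ m0 π c)) := by
      rw [eq_sub_iff_add_eq]; exact h3.symm
    rw [h4]
    refine Submodule.sub_mem _ (SS_mem_range μ m0 ⟨π, hπ⟩ c) (Submodule.sum_mem _ fun v hv => ?_)
    rw [Finset.mem_erase, mem_support_iff] at hv
    obtain ⟨h5, h6, h7⟩ := of_coeff_SS_ne μ hμ m0 hπ c v hv.2
    have h8 : monomial v (coeff v (SS K μ m0 π c)) =
        coeff v (SS K μ m0 π c) • monomial v (1 : K) := by
      rw [smul_monomial, smul_eq_mul, mul_one]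
    rw [h8]
    refine Submodule.smul_mem _ _ (ih (pot μ (Fv ⇑v)) ?_ v rfl ?_ h6)
    · rcases h5 with h5 | h5
      · exfalso
        apply hv.1
        rw [← hmm]
        ext x
        rw [h5]; rfl
      · rw [← hw]
        have h9 : mm π (fun k => c k + ra μ m0 π k) = ⇑m := by rw [hc, hm]
        rwa [h9] at h5
    · intro b
      rw [h7 b, hc, hs]

end Pool.Agent.T9h73.PP
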