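import Pool.Agent.T9h73.PP.Core

/-!
The fundamental lemma of `P`-partitions for a disjoint union of chains.
-/

namespace Pool.Agent.T9h73.PP

open Finset

set_option linter.unusedSectionVars false

/-! ### Tail sums -/

/-- tail sums -/
def up {n : ℕ} (c : Fin n → ℕ) (j : ℕ) : ℕ := ∑ i : Fin n, if j ≤ (i : ℕ) then c i else 0

theorem up_top {n : ℕ} (c : Fin n → ℕ) : up c n = 0 := by
  refine Finset.sum_eq_zero fun i _ => ?_
  rw [if_neg]; have := i.2; omega

theorem up_zero {n : ℕ} (c : Fin n → ℕ) : up c 0 = ∑ i, c i := by simp [up]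

theorem up_succ {n : ℕ} (c : Fin n → ℕ) (j : ℕ) (h : j < n) :
    up c j = c ⟨j, h⟩ + up c (j + 1) := by
  have : ∀ i : Fin n, (if j ≤ (i : ℕ) then c i else 0) =
      (if i = ⟨j, h⟩ then c i else 0) + (if j + 1 ≤ (i : ℕ) then c i else 0) := by
    intro i
    by_cases h1 : i = ⟨j, h⟩
    · subst h1; simp
    · have h2 : (i : ℕ) ≠ j := fun h3 => h1 (Fin.ext h3)
      by_cases h3 : j ≤ (i : ℕ)
      · rw [if_pos h3, if_neg h1, if_pos (by omega), zero_add]
      · rw [if_neg h3, if_neg h1, if_neg (by omega)]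
  rw [up, Finset.sum_congr rfl fun i _ => this i, Finset.sum_add_distrib]
  simp [up]

theorem up_inj {n : ℕ} {c c' : Fin n → ℕ} (h : ∀ j, j < n → up c j = up c' j) : c = c' := by
  funext i
  have h1 := h i i.2
  have h2 : up c (i + 1) = up c' (i + 1) := by
    by_cases h3 : (i : ℕ) + 1 < n
    · exact h _ h3
    · have : (i : ℕ) + 1 = n := by have := i.2; omega
      rw [this, up_top, up_top]
  rw [up_succ c i i.2, up_succ c' i i.2] at h1
  simp only [Fin.eta] at h1
  omega

theorem up_tele {n : ℕ} (g : ℕ → ℕ) (hg : ∀ j, j < n → g (j + 1) ≤ g j) (hn : g n = 0)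
    (c : Fin n → ℕ) (hc : ∀ i : Fin n, c i = g i - g (i + 1)) :
    ∀ d j, j + d = n → up c j = g j := by
  intro d
  induction d with
  | zero =>
    intro j hj
    simp only [add_zero] at hj
    subst hj
    rw [up_top, hn]
  | succ d ih =>
    intro j hj
    have h1 : j < n := by omega
    rw [up_succ c j h1, ih (j + 1) (by omega), hc]
    have := hg j h1
    simp only
    omega

/-- Lower sets of `Fin n`. -/
theorem mem_lower_iff {n : ℕ} (A : Finset (Fin n)) (hA : ∀ v v', v < v' → v' ∈ A → v ∈ A)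
    (v : Fin n) : v ∈ A ↔ (v : ℕ) < A.card := by
  constructor
  · intro hv
    have h1 : Finset.Iic v ⊆ A := by
      intro x hx
      rw [Finset.mem_Iic] at hx
      rcases hx.lt_or_eq with h | h
      · exact hA x v h hv
      · rwa [h]
    have := Finset.card_le_card h1
    rw [Fin.card_Iic] at this
    omega
  · intro hv
    by_contra hno
    have h1 : A ⊆ Finset.Iio v := by
      intro x hx
      rw [Finset.mem_Iio]
      by_contra h2
      rcases (not_lt.mp h2).lt_or_eq with h | h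
      · exact hno (hA v x h hx)
      · exact hno (h ▸ hx)
    have := Finset.card_le_card h1
    rw [Fin.card_Iio] at this
    omega

/-! ### Words and exponents -/

variable {B : Type} [Fintype B] [DecidableEq B] {e : B → ℕ} {N : ℕ}

/-- Linear extensions of the disjoint union of the chains `Fin (e b)`. -/
def LinExt (π : (Σ b, Fin (e b)) ≃ Fin N) : Prop :=
  ∀ b (v v' : Fin (e b)), v < v' → π ⟨b, v⟩ < π ⟨b, v'⟩

instance (π : (Σ b, Fin (e b)) ≃ Fin N) : Decidable (LinExt π) := by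
  unfold LinExt; infer_instance

/-- `u_k(π)`: the vertex after `k` steps. -/
def uu (π : (Σ b, Fin (e b)) ≃ Fin N) (k : ℕ) (b : B) : Fin (e b + 1) :=
  ⟨(univ.filter fun v : Fin (e b) => (π ⟨b, v⟩ : ℕ) < k).card,
    Nat.lt_succ_of_le ((Finset.card_filter_le _ _).trans (by simp))⟩

theorem lt_uu {π : (Σ b, Fin (e b)) ≃ Fin N} (hπ : LinExt π) (k : ℕ) (b : B) (v : Fin (e b)) :
    (v : ℕ) < uu π k b ↔ (π ⟨b, v⟩ : ℕ) < k := by
  have := mem_lower_iff (univ.filter fun v : Fin (e b) => (π ⟨b, v⟩ : ℕ) < k) (by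
    intro v v' hv h
    simp only [mem_filter, mem_univ, true_and] at h ⊢
    exact lt_trans (hπ b v v' hv) h) v
  rw [uu]
  simp only
  rw [← this]
  simp

/-- exponents of a path with multiplicities -/
def mm (π : (Σ b, Fin (e b)) ≃ Fin N) (C : Fin (N + 1) → ℕ) (x : Σ b, Fin (e b + 1)) : ℕ :=
  ∑ k : Fin (N + 1), if uu π k x.1 = x.2 then C k else 0

/-- tail sums of an exponent -/
def tl (m : (Σ b, Fin (e b + 1)) → ℕ) (b : B) (j : ℕ) : ℕ := up (fun i => m ⟨b, i⟩) j

theorem tl_mm (π : (Σ b, Fin (e b)) ≃ Fin N) (C : Fin (N + 1) → ℕ) (b : B) (j : ℕ) :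
    tl (mm π C) b j = ∑ k : Fin (N + 1), if j ≤ (uu π k b : ℕ) then C k else 0 := by
  rw [tl, up]
  simp only [mm]
  have h1 : ∀ i : Fin (e b + 1), (if j ≤ (i : ℕ) then
      ∑ k : Fin (N + 1), (if uu π k b = i then C k else 0) else 0) =
      ∑ k : Fin (N + 1), (if uu π k b = i then (if j ≤ (i : ℕ) then C k else 0) else 0) := by
    intro i
    split_ifs <;> simp
  rw [Finset.sum_congr rfl fun i _ => h1 i, Finset.sum_comm]
  refine Finset.sum_congr rfl fun k _ => ?_
  rw [Finset.sum_ite_eq]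
  simp

/-- the values of the `P`-partition of `mm π C` -/
theorem tl_mm_succ {π : (Σ b, Fin (e b)) ≃ Fin N} (hπ : LinExt π) (C : Fin (N + 1) → ℕ)
    (p : Σ b, Fin (e b)) : tl (mm π C) p.1 (p.2 + 1) = up C (π p + 1) := by
  rw [tl_mm, up]
  refine Finset.sum_congr rfl fun k _ => ?_
  have := lt_uu hπ k p.1 p.2
  simp only [Nat.succ_le_iff]
  simp only [this]

theorem tl_mm_zero (π : (Σ b, Fin (e b)) ≃ Fin N) (C : Fin (N + 1) → ℕ) (b : B) :
    tl (mm π C) b 0 = ∑ k, C k := by
  rw [tl_mm]; simp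

/-- the label of the previous place of the chain -/
def pv (μ : (Σ b, Fin (e b)) → ℕ) (m0 : ℕ) (p : Σ b, Fin (e b)) : ℕ :=
  if h : (p.2 : ℕ) = 0 then m0 else μ ⟨p.1, ⟨p.2 - 1, by have := p.2.2; omega⟩⟩

/-- The strict places: `1` or `0`. -/
def st (μ : (Σ b, Fin (e b)) → ℕ) (m0 : ℕ) (x : Σ b, Fin (e b + 1)) : ℕ :=
  if h : (x.2 : ℕ) < e x.1 then (if pv μ m0 ⟨x.1, ⟨x.2, h⟩⟩ < μ ⟨x.1, ⟨x.2, h⟩⟩ then 1 else 0)
  else 0

/-- `C` is at least one at the ascents. -/
def AscLe (μ : (Σ b, Fin (e b)) → ℕ) (m0 : ℕ) (π : (Σ b, Fin (e b)) ≃ Fin N)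
    (C : Fin (N + 1) → ℕ) : Prop := ∀ r ∈ asc μ m0 π, 1 ≤ C r.castSucc

theorem st_le_mm (μ : (Σ b, Fin (e b)) → ℕ) (m0 : ℕ) {π : (Σ b, Fin (e b)) ≃ Fin N}
    (hπ : LinExt π) {C : Fin (N + 1) → ℕ} (hC : AscLe μ m0 π C) (x : Σ b, Fin (e b + 1)) :
    st μ m0 x ≤ mm π C x := by
  obtain ⟨b, j, hj⟩ := x
  rw [st]
  simp only
  split_ifs with h1 h2
  · -- there is an ascent `r` with `u_r(b) = j`
    have key : ∃ r ∈ asc μ m0 π, uu π r b = ⟨j, hj⟩ := by
      rw [pv] at h2
      simp only at h2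
      by_cases h0 : j = 0
      · subst h0
        rw [dif_pos rfl] at h2
        obtain ⟨r, hr, hle⟩ := exists_asc_le μ m0 π ⟨b, ⟨0, h1⟩⟩ h2
        refine ⟨r, hr, ?_⟩
        apply Fin.ext
        simp only
        by_contra hne
        have := (lt_uu hπ r b ⟨0, h1⟩).mp (by simp only; omega)
        omega
      · rw [dif_neg h0] at h2
        have hlt : (⟨j - 1, by omega⟩ : Fin (e b)) < ⟨j, h1⟩ := by
          rw [Fin.mk_lt_mk]; omega
        obtain ⟨r, hr, hr1, hr2⟩ := exists_asc_between μ m0 π ⟨b, ⟨j, h1⟩⟩ ⟨b, ⟨j - 1, by omega⟩⟩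
          (hπ b _ _ hlt) h2
        refine ⟨r, hr, ?_⟩
        apply Fin.ext
        simp only
        have i1 := (lt_uu hπ r b ⟨j - 1, by omega⟩).mpr hr1
        have i2 : ¬ ((⟨j, h1⟩ : Fin (e b)) : ℕ) < uu π r b := by
          rw [lt_uu hπ]; omega
        simp only at i1 i2
        omega
    obtain ⟨r, hr, hu⟩ := key
    have h3 := hC r hr
    refine h3.trans ?_
    rw [mm]
    refine le_trans ?_ (Finset.single_le_sum (fun _ _ => Nat.zero_le _)
      (Finset.mem_univ r.castSucc))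
    rw [if_pos]
    simpa using hu
  · exact Nat.zero_le _
  · exact Nat.zero_le _

/-! ### Uniqueness of the word -/

theorem up_anti {n : ℕ} (c : Fin n → ℕ) {j j' : ℕ} (h : j ≤ j') : up c j' ≤ up c j := by
  refine Finset.sum_le_sum fun i _ => ?_
  split_ifs <;> omega

theorem up_lt {n : ℕ} (c : Fin n → ℕ) {j j' : ℕ} (i : Fin n) (h1 : j ≤ (i : ℕ))
    (h2 : (i : ℕ) < j') (hc : 1 ≤ c i) : up c j' < up c j := by
  refine Finset.sum_lt_sum (fun i _ => ?_) ⟨i, Finset.mem_univ _, ?_⟩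
  · split_ifs <;> omega
  · rw [if_neg (by omega), if_pos h1]; omega

/-- `p` comes before `q` -/
def Bef {P : Type} (μ : P → ℕ) (f : P → ℕ) (p q : P) : Prop :=
  f q < f p ∨ (f q = f p ∧ μ q < μ p)

theorem bef_of_lt (μ : (Σ b, Fin (e b)) → ℕ) (hμ : Function.Injective μ) (m0 : ℕ)
    {π : (Σ b, Fin (e b)) ≃ Fin N} {C : Fin (N + 1) → ℕ} (hC : AscLe μ m0 π C)
    {p q : Σ b, Fin (e b)} (h : π p < π q) : Bef μ (fun p => up C (π p + 1)) p q := by
  by_cases hr : ∃ r ∈ asc μ m0 π, (π p : ℕ) < r ∧ (r : ℕ) ≤ π q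
  · left
    obtain ⟨r, hr, h1, h2⟩ := hr
    exact up_lt C r.castSucc (by simp; omega) (by simp; omega) (hC r hr)
  · push Not at hr
    have h1 := le_of_no_asc μ m0 π (π p) (π q) (le_of_lt h) (π q).2
      (fun k hk h1 h2 => absurd (hr k hk h1) (by omega))
    simp at h1
    have h2 : μ q < μ p := lt_of_le_of_ne h1 (fun h3 => by
      have := hμ h3
      subst this
      exact lt_irrefl _ h)
    have h3 : up C (π q + 1) ≤ up C (π p + 1) := up_anti C (by
      have : (π p : ℕ) < π q := h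
      omega)
    rcases h3.lt_or_eq with h3 | h3
    · exact Or.inl h3
    · exact Or.inr ⟨h3, h2⟩

theorem equiv_eq_of_lt {P : Type} {π π' : P ≃ Fin N} (h : ∀ p q, π p < π q → π' p < π' q) :
    π = π' := by
  have h1 : ∀ i j : Fin N, i < j → (π.symm.trans π') i < (π.symm.trans π') j := by
    intro i j hij
    simp only [Equiv.trans_apply]
    exact h _ _ (by simpa using hij)
  have hmono : StrictMono (π.symm.trans π') := fun i j hij => h1 i j hij
  have hmono' : StrictMono (π.symm.trans π').symm := by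
    intro i j hij
    by_contra hno
    rcases (not_lt.mp hno).lt_or_eq with h2 | h2
    · have := hmono h2
      simp only [Equiv.apply_symm_apply] at this
      exact absurd hij (not_lt.mpr this.le)
    · have : j = i := (π.symm.trans π').symm.injective h2
      subst this
      exact lt_irrefl _ hij
  have h2 : (π.symm.trans π').toOrderIso hmono.monotone hmono'.monotone = OrderIso.refl _ :=
    Subsingleton.elim _ _
  ext p
  have h3 := congrArg (fun f => f (π p)) h2
  have h4 : π' p = π p := by simpa using h3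
  rw [h4]

theorem word_unique (μ : (Σ b, Fin (e b)) → ℕ) (hμ : Function.Injective μ) (m0 : ℕ)
    {π π' : (Σ b, Fin (e b)) ≃ Fin N} (hπ : LinExt π) (hπ' : LinExt π')
    {C C' : Fin (N + 1) → ℕ} (hC : AscLe μ m0 π C) (hC' : AscLe μ m0 π' C')
    (h : mm π C = mm π' C') (hs : ∑ k, C k = ∑ k, C' k) : π = π' ∧ C = C' := by
  have hf : ∀ p, up C (π p + 1) = up C' (π' p + 1) := by
    intro p
    rw [← tl_mm_succ hπ, ← tl_mm_succ hπ', h]
  have hfe : (fun p => up C (π p + 1)) = fun p => up C' (π' p + 1) := funext hf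
  have hππ : π = π' := by
    apply equiv_eq_of_lt
    intro p q hpq
    have h1 := bef_of_lt μ hμ m0 hC hpq
    by_contra hno
    rcases (not_lt.mp hno).lt_or_eq with h2 | h2
    · have h3 := bef_of_lt μ hμ m0 hC' h2
      rw [hfe] at h1
      simp only [Bef] at h1 h3
      omega
    · have : q = p := π'.injective h2
      subst this
      exact lt_irrefl _ hpq
  subst hππ
  refine ⟨rfl, up_inj fun j hj => ?_⟩
  cases j with
  | zero => rw [up_zero, up_zero, hs]
  | succ j =>
    have h1 := hf (π.symm ⟨j, by omega⟩)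
    simpa using h1

/-! ### Existence of the word -/

theorem tl_succ (m : (Σ b, Fin (e b + 1)) → ℕ) (b : B) (j : ℕ) (h : j < e b + 1) :
    tl m b j = m ⟨b, ⟨j, h⟩⟩ + tl m b (j + 1) := by
  rw [tl, up_succ _ j h, tl]

theorem zero_of_tl_eq (m : (Σ b, Fin (e b + 1)) → ℕ) (b : B) (a a' j : ℕ) (h : j < e b + 1)
    (h1 : a ≤ j) (h2 : j < a') (h3 : tl m b a = tl m b a') : m ⟨b, ⟨j, h⟩⟩ = 0 := by
  by_contra hne
  have := up_lt (fun i => m ⟨b, i⟩) (j := a) (j' := a') ⟨j, h⟩ h1 h2
    (Nat.pos_of_ne_zero hne)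
  rw [tl, tl] at h3
  omega

theorem chain_le (μ : (Σ b, Fin (e b)) → ℕ) (m0 : ℕ) (b : B) (a : ℕ) :
    ∀ v : ℕ, a ≤ v → ∀ hv : v < e b, (∀ j, a ≤ j → j ≤ v → ∀ hj : j < e b + 1,
      st μ m0 ⟨b, ⟨j, hj⟩⟩ = 0) → ∀ ha : a < e b, μ ⟨b, ⟨v, hv⟩⟩ ≤ pv μ m0 ⟨b, ⟨a, ha⟩⟩ := by
  have hone : ∀ j (hj : j < e b), st μ m0 ⟨b, ⟨j, by omega⟩⟩ = 0 →
      μ ⟨b, ⟨j, hj⟩⟩ ≤ pv μ m0 ⟨b, ⟨j, hj⟩⟩ := by
    intro j hj h
    rw [st] at h
    simp only at h
    rw [dif_pos hj] at h
    by_contra hno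
    rw [if_pos (not_le.mp hno)] at h
    omega
  intro v hav
  induction v, hav using Nat.le_induction with
  | base => intro hv h ha; exact hone a hv (h a le_rfl le_rfl _)
  | succ v hav ih =>
    intro hv h ha
    have h1 := ih (by omega) (fun j h1 h2 hj => h j h1 (by omega) hj) ha
    have h2 := hone (v + 1) hv (h (v + 1) (by omega) le_rfl _)
    rw [pv] at h2
    simp only at h2
    rw [dif_neg (by omega)] at h2
    simp only [Nat.add_sub_cancel] at h2
    exact h2.trans h1

theorem exists_word (μ : (Σ b, Fin (e b)) → ℕ) (hμ : Function.Injective μ) (m0 : ℕ)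
    (hN : Fintype.card (Σ b, Fin (e b)) = N) (m : (Σ b, Fin (e b + 1)) → ℕ) (n : ℕ)
    (hn : ∀ b, tl m b 0 = n) (hst : ∀ x, st μ m0 x ≤ m x) :
    ∃ π : (Σ b, Fin (e b)) ≃ Fin N, LinExt π ∧ ∃ C : Fin (N + 1) → ℕ,
      AscLe μ m0 π C ∧ mm π C = m ∧ ∑ k, C k = n := by
  classical
  let f : (Σ b, Fin (e b)) → ℕ := fun p => tl m p.1 (p.2 + 1)
  have hfn : ∀ p, f p ≤ n := fun p => by
    rw [← hn p.1]; exact up_anti _ (Nat.zero_le _)
  have hst0 : ∀ b j (hj : j < e b + 1), m ⟨b, ⟨j, hj⟩⟩ = 0 → st μ m0 ⟨b, ⟨j, hj⟩⟩ = 0 :=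
    fun b j hj h => Nat.le_zero.mp (h ▸ hst _)
  -- the order
  have hirr : ∀ p, ¬ Bef μ f p p := fun p h => by simp [Bef] at h
  have htr : ∀ p q r, Bef μ f p q → Bef μ f q r → Bef μ f p r := by
    intro p q r h1 h2
    simp only [Bef] at *
    omega
  have htri : ∀ p q, p ≠ q → Bef μ f p q ∨ Bef μ f q p := by
    intro p q h
    have : μ p ≠ μ q := fun h' => h (hμ h')
    simp only [Bef]
    omega
  let ps : (Σ b, Fin (e b)) → ℕ := fun q => (univ.filter fun p => Bef μ f p q).card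
  have hps : ∀ p q, Bef μ f p q → ps p < ps q := by
    intro p q h
    apply Finset.card_lt_card
    rw [Finset.ssubset_iff_of_subset]
    · exact ⟨p, by simpa using h, by simpa using hirr p⟩
    · intro x hx
      simp only [mem_filter, mem_univ, true_and] at hx ⊢
      exact htr x p q hx h
  have hpsN : ∀ p, ps p < N := by
    intro p
    rw [← hN, ← Finset.card_univ]
    apply Finset.card_lt_card
    rw [Finset.ssubset_iff_of_subset (Finset.subset_univ _)]
    exact ⟨p, Finset.mem_univ _, by simpa using hirr p⟩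
  have hinj : Function.Injective (fun p => (⟨ps p, hpsN p⟩ : Fin N)) := by
    intro p q h
    by_contra hne
    have h' : ps p = ps q := by simpa using h
    rcases htri p q hne with h1 | h1
    · have := hps p q h1; omega
    · have := hps q p h1; omega
  have hbij : Function.Bijective (fun p => (⟨ps p, hpsN p⟩ : Fin N)) := by
    rw [Fintype.bijective_iff_injective_and_card]
    exact ⟨hinj, by rw [hN, Fintype.card_fin]⟩
  let π : (Σ b, Fin (e b)) ≃ Fin N := Equiv.ofBijective _ hbij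
  have hπv : ∀ p, (π p : ℕ) = ps p := fun p => rfl
  have hπ1 : ∀ p q, Bef μ f p q → π p < π q := fun p q h => by
    rw [Fin.lt_def, hπv, hπv]; exact hps p q h
  have hπ2 : ∀ p q, π p < π q → Bef μ f p q := by
    intro p q h
    have hne : p ≠ q := by rintro rfl; exact lt_irrefl _ h
    rcases htri p q hne with h1 | h1
    · exact h1
    · exact absurd (hπ1 q p h1) (not_lt.mpr h.le)
  have hlin : LinExt π := by
    intro b v v' hv
    apply hπ1
    have hle : f ⟨b, v'⟩ ≤ f ⟨b, v⟩ := up_anti _ (by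
      have : (v : ℕ) < v' := hv
      simp only; omega)
    rcases hle.lt_or_eq with h | h
    · exact Or.inl h
    · refine Or.inr ⟨h, ?_⟩
      have hvv : (v : ℕ) < v' := hv
      have h1 := chain_le μ m0 b (v + 1) v' (by omega) v'.2 (fun j h1 h2 hj =>
        hst0 b j hj (zero_of_tl_eq m b (v + 1) (v' + 1) j hj h1 (by omega) h.symm)) (by omega)
      rw [pv] at h1
      simp only at h1
      rw [dif_neg (by omega)] at h1
      simp only [Nat.add_sub_cancel, Fin.eta] at h1
      exact lt_of_le_of_ne h1 (fun h2 => by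
        have h3 := hμ h2
        simp only [Sigma.mk.injEq, heq_eq_eq, true_and] at h3
        omega)
  -- the multiplicities
  let g : ℕ → ℕ := fun k => if k = 0 then n else
    if h : k - 1 < N then f (π.symm ⟨k - 1, h⟩) else 0
  have hg0 : g 0 = n := by simp [g]
  have hgs : ∀ k (h : k < N), g (k + 1) = f (π.symm ⟨k, h⟩) := by
    intro k h; simp [g, h]
  have hgt : g (N + 1) = 0 := by simp [g]
  have hanti : ∀ j, j < N + 1 → g (j + 1) ≤ g j := by
    intro j hj
    cases j with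
    | zero =>
      rw [hg0]
      by_cases h : 0 < N
      · rw [hgs 0 h]; exact hfn _
      · have : N = 0 := by omega
        subst this
        rw [hgt]; exact Nat.zero_le _
    | succ k =>
      by_cases h : k + 1 < N
      · rw [hgs _ h, hgs k (by omega)]
        have h1 : Bef μ f (π.symm ⟨k, by omega⟩) (π.symm ⟨k + 1, h⟩) := by
          apply hπ2; simp
        simp only [Bef] at h1
        omega
      · have : k + 1 = N := by omega
        rw [this, hgt]; exact Nat.zero_le _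
  let C : Fin (N + 1) → ℕ := fun i => g i - g (i + 1)
  have hup : ∀ j, j ≤ N + 1 → up C j = g j := fun j hj =>
    up_tele g hanti hgt C (fun i => rfl) (N + 1 - j) j (by omega)
  refine ⟨π, hlin, C, ?_, ?_, ?_⟩
  · intro r hr
    rw [mem_asc] at hr
    obtain ⟨r, hrN⟩ := r
    show 1 ≤ g r - g (r + 1)
    cases r with
    | zero =>
      rw [prev_zero] at hr
      rw [hg0, hgs 0 hrN]
      by_contra hno
      have h1 : f (π.symm ⟨0, hrN⟩) = n := by
        have := hfn (π.symm ⟨0, hrN⟩)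
        omega
      have key : ∀ w : Σ b, Fin (e b), f w = n → μ w ≤ m0 := by
        rintro ⟨b, v⟩ hw
        have h2 : tl m b 0 = tl m b (v + 1) := by rw [hn]; exact hw.symm
        have h3 := chain_le μ m0 b 0 v (Nat.zero_le _) v.2 (fun j h1 h2' hj =>
          hst0 b j hj (zero_of_tl_eq m b 0 (v + 1) j hj h1 (by omega) h2))
          (by have := v.2; omega)
        rw [pv] at h3
        simpa using h3
      have := key _ h1
      omega
    | succ k =>
      rw [prev_succ] at hr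
      rw [hgs _ hrN, hgs k (by omega)]
      have h1 : Bef μ f (π.symm ⟨k, by omega⟩) (π.symm ⟨k + 1, hrN⟩) := by
        apply hπ2; simp
      simp only [Bef] at h1
      omega
  · funext x
    obtain ⟨b, i⟩ := x
    have h1 : (fun i => mm π C ⟨b, i⟩) = fun i => m ⟨b, i⟩ := by
      apply up_inj
      intro j hj
      show tl (mm π C) b j = tl m b j
      cases j with
      | zero => rw [tl_mm_zero, ← up_zero, hup 0 (by omega), hg0, hn]
      | succ v =>
        have h2 := tl_mm_succ hlin C ⟨b, ⟨v, by omega⟩⟩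
        simp only at h2
        rw [h2, hup _ (by have := (π ⟨b, ⟨v, by omega⟩⟩).2; omega), hgs _ (π _).2]
        simp [f]
    exact congrFun h1 i
  · rw [← up_zero, hup 0 (by omega), hg0]

end Pool.Agent.T9h73.PP
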