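import Pool.Agent.T9h29.NA.Defs
import Pool.Agent.T9h73.PP.Sort

/-!
The Segre modules `M(s)` are free over `K[θ]`.
-/

namespace Pool.Agent.T9h73.PP

open Finset MvPolynomial Pool.Agent.T9h29.NA

set_option linter.unusedSectionVars false

universe u

variable {K : Type u} [Field K] {B : Type} [Fintype B] [DecidableEq B] {e : B → ℕ} {N : ℕ}

/-- functions to finitely supported functions -/
noncomputable abbrev fs (m : (Σ b, Fin (e b + 1)) → ℕ) : (Σ b, Fin (e b + 1)) →₀ ℕ :=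
  Finsupp.equivFunOnFinite.symm m

/-- exponent of a vertex -/
def dl (u : ∀ b, Fin (e b + 1)) (x : Σ b, Fin (e b + 1)) : ℕ := if u x.1 = x.2 then 1 else 0

theorem fs_dl (u : ∀ b, Fin (e b + 1)) :
    fs (dl u) = ∑ b, Finsupp.single (⟨b, u b⟩ : Σ b, Fin (e b + 1)) 1 := by
  ext ⟨b, j⟩
  rw [Finsupp.finsetSum_apply]
  simp only [fs, Finsupp.equivFunOnFinite_symm_apply_apply, dl]
  rw [Finset.sum_eq_single b]
  · rw [Finsupp.single_apply]
    simp
  · intro b' _ hb'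
    rw [Finsupp.single_apply, if_neg]
    intro h
    apply hb'
    exact congrArg Sigma.fst h
  · intro h; exact absurd (Finset.mem_univ _) h

theorem theta_eq (l : ℕ) : theta K e l =
    ∑ u : ∀ b, Fin (e b + 1), if ∑ b, (u b : ℕ) = l then monomial (fs (dl u)) (1 : K) else 0 := by
  rw [theta, Finset.prod_univ_sum, Fintype.piFinset_univ, Polynomial.finsetSum_coeff]
  refine Finset.sum_congr rfl fun u _ => ?_
  rw [Finset.prod_mul_distrib, ← map_prod, Finset.prod_pow_eq_pow_sum,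
    Polynomial.coeff_C_mul_X_pow]
  by_cases h : ∑ b, (u b : ℕ) = l
  · rw [if_pos h.symm, if_pos h, fs_dl]
    rw [monomial_sum_one]
    rfl
  · rw [if_neg (fun h' => h h'.symm), if_neg h]

/-! ### The sets of the vertices -/

/-- the lower set of a vertex -/
def Js (u : ∀ b, Fin (e b + 1)) : Finset (Σ b, Fin (e b)) :=
  univ.filter fun p => (p.2 : ℕ) < u p.1

theorem mem_Js {u : ∀ b, Fin (e b + 1)} {p : Σ b, Fin (e b)} : p ∈ Js u ↔ (p.2 : ℕ) < u p.1 := by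
  simp [Js]

theorem card_Js (u : ∀ b, Fin (e b + 1)) : (Js u).card = ∑ b, (u b : ℕ) := by
  rw [Js, Finset.card_filter, Fintype.sum_sigma]
  refine Finset.sum_congr rfl fun b _ => ?_
  simp only
  rw [← Finset.card_filter, Fin.card_filter_val_lt]
  have := (u b).2
  omega

theorem Js_inj {u u' : ∀ b, Fin (e b + 1)} (h : Js u = Js u') : u = u' := by
  have key : ∀ {u u' : ∀ b, Fin (e b + 1)}, Js u = Js u' → ∀ b, (u' b : ℕ) ≤ u b := by
    intro u u' h b
    by_contra hno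
    have h1 : (u b : ℕ) < u' b := not_le.mp hno
    have h2 : (u b : ℕ) < e b := by have := (u' b).2; omega
    have h3 : (⟨b, ⟨u b, h2⟩⟩ : Σ b, Fin (e b)) ∈ Js u' := mem_Js.mpr h1
    rw [← h, mem_Js] at h3
    exact lt_irrefl _ h3
  funext b
  exact Fin.ext (le_antisymm (key h.symm b) (key h b))

theorem Js_uu {π : (Σ b, Fin (e b)) ≃ Fin N} (hπ : LinExt π) (k : ℕ) :
    Js (uu π k) = seg π k := by
  ext p
  rw [mem_Js, mem_seg]
  exact lt_uu hπ k p.1 p.2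

/-- values of the `P`-partition -/
def Fv (m : (Σ b, Fin (e b + 1)) → ℕ) (p : Σ b, Fin (e b)) : ℕ := tl m p.1 (p.2 + 1)

theorem up_add {n : ℕ} (c c' : Fin n → ℕ) (j : ℕ) :
    up (fun i => c i + c' i) j = up c j + up c' j := by
  rw [up, up, up, ← Finset.sum_add_distrib]
  refine Finset.sum_congr rfl fun i _ => ?_
  split_ifs <;> simp

theorem up_sum {n : ℕ} {ι : Type} [Fintype ι] (c : ι → Fin n → ℕ) (j : ℕ) :
    up (fun i => ∑ k, c k i) j = ∑ k, up (c k) j := by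
  simp only [up]
  rw [Finset.sum_comm]
  refine Finset.sum_congr rfl fun i _ => ?_
  split_ifs <;> simp

theorem Fv_add (m m' : (Σ b, Fin (e b + 1)) → ℕ) (p : Σ b, Fin (e b)) :
    Fv (fun x => m x + m' x) p = Fv m p + Fv m' p := up_add _ _ _

theorem Fv_sum {ι : Type} [Fintype ι] (m : ι → (Σ b, Fin (e b + 1)) → ℕ) (p : Σ b, Fin (e b)) :
    Fv (fun x => ∑ k, m k x) p = ∑ k, Fv (m k) p := up_sum _ _

theorem tl_dl (u : ∀ b, Fin (e b + 1)) (b : B) (j : ℕ) :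
    tl (dl u) b j = if j ≤ (u b : ℕ) then 1 else 0 := by
  rw [tl, up]
  simp only [dl]
  rw [Finset.sum_eq_single (u b)]
  · simp
  · intro i _ hi
    simp [Ne.symm hi]
  · intro h; exact absurd (Finset.mem_univ _) h

theorem Fv_dl (u : ∀ b, Fin (e b + 1)) (p : Σ b, Fin (e b)) :
    Fv (dl u) p = if p ∈ Js u then 1 else 0 := by
  rw [Fv, tl_dl]
  simp only [mem_Js, Nat.succ_le_iff]

/-- Indicator of the ascents. -/
def ra (μ : (Σ b, Fin (e b)) → ℕ) (m0 : ℕ) (π : (Σ b, Fin (e b)) ≃ Fin N) (k : Fin (N + 1)) : ℕ :=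
  ∑ r : {r // r ∈ asc μ m0 π}, if r.1.castSucc = k then 1 else 0

theorem ra_le (μ : (Σ b, Fin (e b)) → ℕ) (m0 : ℕ) (π : (Σ b, Fin (e b)) ≃ Fin N)
    {C : Fin (N + 1) → ℕ} (hC : AscLe μ m0 π C) (k : Fin (N + 1)) : ra μ m0 π k ≤ C k := by
  rw [ra]
  by_cases h : ∃ r : {r // r ∈ asc μ m0 π}, r.1.castSucc = k
  · obtain ⟨r, hr⟩ := h
    rw [Finset.sum_eq_single r]
    · rw [if_pos hr, ← hr]; exact hC r.1 r.2
    · intro r' _ hne
      rw [if_neg]
      intro h'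
      exact hne (Subtype.ext (Fin.castSucc_injective _ (h'.trans hr.symm)))
    · intro h; exact absurd (Finset.mem_univ _) h
  · push Not at h
    rw [Finset.sum_eq_zero (fun r _ => if_neg (h r))]
    exact Nat.zero_le _

theorem ascLe_ra (μ : (Σ b, Fin (e b)) → ℕ) (m0 : ℕ) (π : (Σ b, Fin (e b)) ≃ Fin N)
    (c : Fin (N + 1) → ℕ) : AscLe μ m0 π (fun k => c k + ra μ m0 π k) := by
  intro r hr
  have : (if (⟨r, hr⟩ : {r // r ∈ asc μ m0 π}).1.castSucc = r.castSucc then 1 else 0) ≤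
      ra μ m0 π r.castSucc :=
    Finset.single_le_sum (f := fun r' : {r // r ∈ asc μ m0 π} =>
      if r'.1.castSucc = r.castSucc then 1 else 0) (fun _ _ => Nat.zero_le _)
      (Finset.mem_univ (⟨r, hr⟩ : {r // r ∈ asc μ m0 π}))
  rw [if_pos rfl] at this
  simp only
  omega

theorem sum_ra (μ : (Σ b, Fin (e b)) → ℕ) (m0 : ℕ) (π : (Σ b, Fin (e b)) ≃ Fin N) :
    ∑ k, ra μ m0 π k = (asc μ m0 π).card := by
  simp only [ra]
  rw [Finset.sum_comm]
  simp

theorem up_ra (μ : (Σ b, Fin (e b)) → ℕ) (m0 : ℕ) (π : (Σ b, Fin (e b)) ≃ Fin N) (j : ℕ) :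
    up (ra μ m0 π) j = ∑ r : {r // r ∈ asc μ m0 π}, if j ≤ (r.1 : ℕ) then 1 else 0 := by
  rw [show ra μ m0 π = fun k => ∑ r : {r // r ∈ asc μ m0 π}, if r.1.castSucc = k then 1 else 0
    from rfl, up_sum]
  refine Finset.sum_congr rfl fun r _ => ?_
  rw [up, Finset.sum_eq_single r.1.castSucc]
  · simp
  · intro k _ hk
    simp [Ne.symm hk]
  · intro h; exact absurd (Finset.mem_univ _) h

/-- total exponent of a choice of vertices -/
def tot (μ : (Σ b, Fin (e b)) → ℕ) (m0 : ℕ) (π : (Σ b, Fin (e b)) ≃ Fin N) {c : Fin (N + 1) → ℕ}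
    (U : (Σ l : Fin (N + 1), Fin (c l)) → ∀ b, Fin (e b + 1)) (x : Σ b, Fin (e b + 1)) : ℕ :=
  (∑ q, dl (U q) x) + mm π (ra μ m0 π) x

theorem Fv_tot (μ : (Σ b, Fin (e b)) → ℕ) (m0 : ℕ) {π : (Σ b, Fin (e b)) ≃ Fin N}
    (hπ : LinExt π) {c : Fin (N + 1) → ℕ}
    (U : (Σ l : Fin (N + 1), Fin (c l)) → ∀ b, Fin (e b + 1)) :
    Fv (tot μ m0 π U) = cnt (fun j : {r // r ∈ asc μ m0 π} ⊕ (Σ l : Fin (N + 1), Fin (c l)) =>
      match j with
      | Sum.inl r => seg π r.1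
      | Sum.inr q => Js (U q)) := by
  funext p
  rw [cnt, Fintype.sum_sum_type]
  simp only
  rw [show tot μ m0 π U = fun x => (fun x => ∑ q, dl (U q) x) x + mm π (ra μ m0 π) x from rfl,
    Fv_add, Fv_sum, add_comm]
  congr 1
  · rw [Fv, tl_mm_succ hπ, up_ra]
    refine Finset.sum_congr rfl fun r _ => ?_
    simp only [mem_seg, Nat.succ_le_iff]
  · exact Finset.sum_congr rfl fun q _ => Fv_dl _ _

theorem tot_pot_lt (μ : (Σ b, Fin (e b)) → ℕ) (hμ : Function.Injective μ) (m0 : ℕ)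
    {π : (Σ b, Fin (e b)) ≃ Fin N} (hπ : LinExt π) {c : Fin (N + 1) → ℕ}
    (U : (Σ l : Fin (N + 1), Fin (c l)) → ∀ b, Fin (e b + 1))
    (hU : ∀ q, ∑ b, (U q b : ℕ) = q.1) (hne : U ≠ fun q => uu π q.1) :
    pot μ (Fv (tot μ m0 π U)) < pot μ (Fv (tot μ m0 π (c := c) fun q => uu π q.1)) := by
  rw [Fv_tot μ m0 hπ, Fv_tot μ m0 hπ]
  have hex : ∃ q, Js (U q) ≠ seg π q.1 := by
    by_contra hno
    push Not at hno
    apply hne
    funext q
    apply Js_inj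
    rw [hno q, Js_uu hπ]
  obtain ⟨q, hq⟩ := hex
  have h1 := pot_lt μ hμ m0 π (fun j : {r // r ∈ asc μ m0 π} ⊕ (Σ l : Fin (N + 1), Fin (c l)) =>
      match j with
      | Sum.inl r => seg π r.1
      | Sum.inr q => Js (U q)) (fun r hr _ => ⟨Sum.inl ⟨r, hr⟩, rfl⟩)
      ⟨Sum.inr q, by simp only; rw [card_Js, hU]; exact hq⟩
  refine lt_of_lt_of_eq h1 ?_
  congr 2
  funext j
  rcases j with r | q
  · simp only
    rw [card_seg π r.1.2.le]
  · simp only
    rw [card_Js, hU, Js_uu hπ]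

theorem sum_uu {π : (Σ b, Fin (e b)) ≃ Fin N} (hπ : LinExt π) (k : Fin (N + 1)) :
    ∑ b, (uu π k b : ℕ) = k := by
  rw [← card_Js, Js_uu hπ, card_seg π (by have := k.2; omega)]

theorem tot_uu (μ : (Σ b, Fin (e b)) → ℕ) (m0 : ℕ) (π : (Σ b, Fin (e b)) ≃ Fin N)
    (c : Fin (N + 1) → ℕ) : tot μ m0 π (c := c) (fun q => uu π q.1) =
      mm π (fun k => c k + ra μ m0 π k) := by
  funext x
  rw [tot, mm, mm, Fintype.sum_sigma, ← Finset.sum_add_distrib]
  refine Finset.sum_congr rfl fun k _ => ?_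
  simp only [dl]
  split_ifs <;> simp

/-! ### The products -/

/-- `θ^c` times the monomial of the ascents. -/
noncomputable def SS (K : Type u) [Field K] (μ : (Σ b, Fin (e b)) → ℕ) (m0 : ℕ)
    (π : (Σ b, Fin (e b)) ≃ Fin N) (c : Fin (N + 1) → ℕ) : Pg K e :=
  (∏ l : Fin (N + 1), theta K e l ^ c l) * monomial (fs (mm π (ra μ m0 π))) 1

theorem SS_eq (μ : (Σ b, Fin (e b)) → ℕ) (m0 : ℕ) (π : (Σ b, Fin (e b)) ≃ Fin N)
    (c : Fin (N + 1) → ℕ) : SS K μ m0 π c =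
      ∑ U : (Σ l : Fin (N + 1), Fin (c l)) → ∀ b, Fin (e b + 1),
        if ∀ q, ∑ b, (U q b : ℕ) = q.1 then monomial (fs (tot μ m0 π U)) (1 : K) else 0 := by
  have h1 : (∏ l : Fin (N + 1), theta K e l ^ c l) =
      ∏ q : (Σ l : Fin (N + 1), Fin (c l)), theta K e q.1 := by
    rw [Fintype.prod_sigma]
    refine Finset.prod_congr rfl fun l _ => ?_
    simp
  rw [SS, h1]
  simp_rw [theta_eq]
  rw [Finset.prod_univ_sum, Fintype.piFinset_univ, Finset.sum_mul]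
  refine Finset.sum_congr rfl fun U _ => ?_
  rw [Finset.prod_ite_zero]
  simp only [Finset.mem_univ, forall_true_left]
  split_ifs with h
  · have h2 : ∑ q, fs (dl (U q)) + fs (mm π (ra μ m0 π)) = fs (tot μ m0 π U) := by
      ext x
      simp [tot]
    rw [← monomial_sum_one, monomial_mul, one_mul, h2]
  · rw [zero_mul]

end Pool.Agent.T9h73.PP
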